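import Pool.Agent.N598.ST.Def

set_option autoImplicit false

namespace Pool.Agent.N598.ST

open NumberField IsDedekindDomain

section sup
variable {K Ω : Type} [Field K] [CharZero K] [Field Ω] [Algebra K Ω] [Normal K Ω]

theorem comm_of_abelian (E : IntermediateField K Ω) [IsAbelianGalois K E] (σ τ : Ω ≃ₐ[K] Ω)
    (x : Ω) (hx : x ∈ E) : σ (τ x) = τ (σ x) := by
  have h1 : ∀ (σ τ : Ω ≃ₐ[K] Ω), algebraMap E Ω ((σ.restrictNormal E) ((τ.restrictNormal E) ⟨x, hx⟩))
      = σ (τ x) := by
    intro σ τ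
    rw [AlgEquiv.restrictNormal_commutes, AlgEquiv.restrictNormal_commutes]
    rfl
  rw [← h1, ← h1]
  have := (IsMulCommutative.is_comm (M := Gal(E/K))).comm (σ.restrictNormal E) (τ.restrictNormal E)
  have h2 := DFunLike.congr_fun this (⟨x, hx⟩ : E)
  exact congrArg (algebraMap E Ω) h2

theorem sup_abelian_aux (E E1 E2 : IntermediateField K Ω) [IsAbelianGalois K E1]
    [IsAbelianGalois K E2] (hE : E = E1 ⊔ E2) [Normal K E] : IsAbelianGalois K E := by
  have hg : IsGalois K E := ⟨⟩
  refine { is_comm := ⟨fun σ τ => ?_⟩ }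
  have key : ∀ x ∈ E, (σ.liftNormal Ω) ((τ.liftNormal Ω) x) = (τ.liftNormal Ω) ((σ.liftNormal Ω) x) := by
    set s := σ.liftNormal Ω
    set t := τ.liftNormal Ω
    let B : IntermediateField K Ω := IntermediateField.fixedField (Subgroup.zpowers (s⁻¹ * t⁻¹ * s * t))
    have hB : ∀ x, s (t x) = t (s x) → x ∈ B := by
      intro x hx
      rw [IntermediateField.mem_fixedField_iff]
      intro f hf
      have hs : s⁻¹ * t⁻¹ * s * t ∈ MulAction.stabilizer (Ω ≃ₐ[K] Ω) x := by
        rw [MulAction.mem_stabilizer_iff]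
        change s⁻¹ (t⁻¹ (s (t x))) = x
        rw [hx]
        change s.symm (t.symm (t (s x))) = x
        simp
      exact (Subgroup.zpowers_le.2 hs) hf
    have hB2 : ∀ x ∈ B, s (t x) = t (s x) := by
      intro x hx
      rw [IntermediateField.mem_fixedField_iff] at hx
      have h := hx _ (Subgroup.mem_zpowers _)
      change s.symm (t.symm (s (t x))) = x at h
      rw [AlgEquiv.symm_apply_eq, AlgEquiv.symm_apply_eq] at h
      exact h
    have hle : E ≤ B := hE ▸ sup_le (fun x hx => hB x (comm_of_abelian E1 s t x hx))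
      (fun x hx => hB x (comm_of_abelian E2 s t x hx))
    exact fun x hx => hB2 x (hle hx)
  ext x
  have h := key x x.2
  have e : ∀ (σ τ : Gal(E/K)), (σ.liftNormal Ω) ((τ.liftNormal Ω) (x : Ω)) = ((σ (τ x) : E) : Ω) := by
    intro σ τ
    have h1 := AlgEquiv.liftNormal_commutes τ Ω x
    have h2 := AlgEquiv.liftNormal_commutes σ Ω (τ x)
    change (τ.liftNormal Ω) (x : Ω) = ((τ x : E) : Ω) at h1
    change (σ.liftNormal Ω) ((τ x : E) : Ω) = ((σ (τ x) : E) : Ω) at h2
    rw [h1, h2]
  rw [e, e] at h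
  exact h

theorem sup_abelian (E1 E2 : IntermediateField K Ω) [IsAbelianGalois K E1] [IsAbelianGalois K E2] :
    IsAbelianGalois K (E1 ⊔ E2 : IntermediateField K Ω) :=
  sup_abelian_aux _ E1 E2 rfl

end sup

section root

variable {K H : Type} [Field K] [NumberField K] [Field H] [NumberField H] [Algebra K H]

/-- `AbRoot` inside the algebraic closure of `H` -/
def AbOm (K : Type) {H : Type} [Field K] [NumberField K] [Field H] [NumberField H] [Algebra K H]
    (w : ℕ) (x : H) : Prop :=
  ∃ E : IntermediateField K (AlgebraicClosure H), IsAbelianGalois K E ∧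
    (∀ h : H, algebraMap H (AlgebraicClosure H) h ∈ E) ∧
    ∃ z ∈ E, z ^ w = algebraMap H (AlgebraicClosure H) x

theorem AbOm.mul {w : ℕ} {x y : H} (hx : AbOm K w x) (hy : AbOm K w y) : AbOm K w (x * y) := by
  obtain ⟨E, hE, hH, z, hz, hzx⟩ := hx
  obtain ⟨E', hE', hH', z', hz', hzy⟩ := hy
  have : IsAbelianGalois K (E ⊔ E' : IntermediateField K (AlgebraicClosure H)) := sup_abelian E E'
  exact ⟨E ⊔ E', this, fun h => le_sup_left (b := E') (hH h), z * z',
    mul_mem (le_sup_left (b := E') hz) (le_sup_right (a := E) hz'), by rw [mul_pow, hzx, hzy, map_mul]⟩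

theorem AbOm.inv {w : ℕ} {x : H} (hx : AbOm K w x) : AbOm K w x⁻¹ := by
  obtain ⟨E, hE, hH, z, hz, hzx⟩ := hx
  exact ⟨E, hE, hH, z⁻¹, inv_mem hz, by rw [inv_pow, hzx, map_inv₀]⟩

theorem AbOm.pow {w : ℕ} {x : H} (hx : AbOm K w x) (n : ℕ) : AbOm K w (x ^ n) := by
  obtain ⟨E, hE, hH, z, hz, hzx⟩ := hx
  exact ⟨E, hE, hH, z ^ n, pow_mem hz n, by rw [← pow_mul, mul_comm, pow_mul, hzx, map_pow]⟩

theorem AbOm.zpow {w : ℕ} {x : H} (hx : AbOm K w x) (n : ℤ) : AbOm K w (x ^ n) := by
  cases n with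
  | ofNat n => simpa using hx.pow n
  | negSucc n => rw [zpow_negSucc]; exact (hx.pow _).inv

theorem AbOm.abRoot {w : ℕ} {x : H} (hx : AbOm K w x) : AbRoot K w x := by
  obtain ⟨E, hE, hH, z, hz, hzx⟩ := hx
  let M : IntermediateField H (AlgebraicClosure H) := IntermediateField.adjoin H {z}
  have hM : ∀ y ∈ M, y ∈ E := by
    intro y hy
    induction hy using IntermediateField.adjoin_induction with
    | mem y hy => rw [Set.mem_singleton_iff.1 hy]; exact hz
    | algebraMap h => exact hH h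
    | add a b _ _ ha hb => exact add_mem ha hb
    | inv a _ ha => exact inv_mem ha
    | mul a b _ _ ha hb => exact mul_mem ha hb
  let f : M →ₐ[K] E :=
    { toFun := fun y => ⟨y, hM y y.2⟩
      map_one' := rfl
      map_mul' := fun _ _ => rfl
      map_zero' := rfl
      map_add' := fun _ _ => rfl
      commutes' := fun _ => rfl }
  refine ⟨M, inferInstance, inferInstance, inferInstance, inferInstance,
    IsAbelianGalois.of_algHom f, ⟨z, IntermediateField.mem_adjoin_simple_self H z⟩,
    Subtype.ext hzx, ?_⟩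
  apply IntermediateField.lift_injective M
  rw [IntermediateField.lift_adjoin_simple, IntermediateField.lift_top]

/-- abelian roots over `F` give abelian roots over `H` -/
theorem AbRoot.lift {F : Type} [Field F] [NumberField F] [Algebra K F] [Algebra F H]
    [IsScalarTower K F H] [IsAbelianGalois K H] {w k : ℕ} {x : F} (hx : AbRoot K w x) :
    AbOm K (w * k) ((algebraMap F H x) ^ k) := by
  obtain ⟨M, _, _, _, _, hM, z, hzx, htop⟩ := hx
  have : Algebra.IsAlgebraic K M := inferInstance
  have : Algebra.IsAlgebraic F M := Algebra.IsAlgebraic.tower_top (K := K) F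
  let j : M →ₐ[F] AlgebraicClosure H := IsAlgClosed.lift
  let jK : M →ₐ[K] AlgebraicClosure H := j.restrictScalars K
  let iH : H →ₐ[K] AlgebraicClosure H := IsScalarTower.toAlgHom K H (AlgebraicClosure H)
  have h1 : IsAbelianGalois K jK.fieldRange :=
    IsAbelianGalois.of_algHom (AlgEquiv.ofInjectiveField jK).symm.toAlgHom
  have h2 : IsAbelianGalois K iH.fieldRange :=
    IsAbelianGalois.of_algHom (AlgEquiv.ofInjectiveField iH).symm.toAlgHom
  have : Algebra.IsAlgebraic K (AlgebraicClosure H) := Algebra.IsAlgebraic.trans K H _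
  have : IsAlgClosure K (AlgebraicClosure H) := ⟨inferInstance, this⟩
  have : Normal K (AlgebraicClosure H) := IsAlgClosure.normal K _
  refine ⟨jK.fieldRange ⊔ iH.fieldRange, sup_abelian _ _, fun h => ?_, j z, ?_, ?_⟩
  · exact le_sup_right (a := jK.fieldRange) ⟨h, rfl⟩
  · exact le_sup_left (b := iH.fieldRange) ⟨z, rfl⟩
  · rw [pow_mul, ← map_pow, hzx, map_pow, AlgHom.commutes]
    rfl

end root

end Pool.Agent.N598.ST
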