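import Mathlib

/-!
# The rank one abelian Stark conjecture in Tate's form: definitions (helper598)

`H / K` a finite abelian extension of number fields, `S` a finite set of places of `K`, `p ∈ S` a
totally split place, `W` the number of the roots of unity of `H`.
-/

set_option autoImplicit false

namespace Pool.Agent.N598.ST

open NumberField IsDedekindDomain

/-- The places of a number field: the infinite places and the maximal ideals of the ring of
integers. -/
abbrev Place (K : Type) [Field K] [NumberField K] : Type :=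
  InfinitePlace K ⊕ HeightOneSpectrum (𝓞 K)

/-- The normalised absolute value: `|x|` at a real place, `|x|²` at a complex place,
`N P ^ (- ord_P x)` at a finite place `P`. -/
noncomputable def nabs {K : Type} [Field K] [NumberField K] : Place K → K → ℝ
  | .inl w, x => w x ^ w.mult
  | .inr P, x => HeightOneSpectrum.adicAbv K P x

section ext

variable (K H : Type) [Field K] [NumberField K] [Field H] [NumberField H] [Algebra K H]

/-- The place `P` of `H` lies over the place `p` of `K`. -/
def Over : Place H → Place K → Prop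
  | .inl w, .inl v => w.comap (algebraMap K H) = v
  | .inr P, .inr p => P.asIdeal.LiesOver p.asIdeal
  | _, _ => False

/-- The place `p` of `K` is totally split in `H`: all the local degrees are `1`. -/
def TotallySplit : Place K → Prop
  | .inl v => ∀ w : InfinitePlace H, w.comap (algebraMap K H) = v → w.mult = v.mult
  | .inr p => ∀ P : HeightOneSpectrum (𝓞 H), P.asIdeal.LiesOver p.asIdeal →
      P.asIdeal.ramificationIdx (𝓞 K) = 1 ∧ P.asIdeal.inertiaDeg (𝓞 K) = 1

/-- The finite place `p` of `K` is unramified in `H`. -/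
def Unram (p : HeightOneSpectrum (𝓞 K)) : Prop :=
  ∀ P : HeightOneSpectrum (𝓞 H), P.asIdeal.LiesOver p.asIdeal →
    P.asIdeal.ramificationIdx (𝓞 K) = 1

/-- The hypotheses on `S` and `p`: `S` has at least two elements and contains all infinite places,
all finite places ramified in `H` and the place `p`, which is totally split in `H`. -/
structure Data (S : Finset (Place K)) (p : Place K) : Prop where
  two_le : 2 ≤ S.card
  arch : ∀ v : InfinitePlace K, Sum.inl v ∈ S
  ram : ∀ q : HeightOneSpectrum (𝓞 K), Sum.inr q ∉ S → Unram K H q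
  mem : p ∈ S
  split : TotallySplit K H p

variable {K}

/-- The ideal `𝔞` is nonzero and prime to all finite places in `S`. -/
def PrimeTo (S : Finset (Place K)) (𝔞 : Ideal (𝓞 K)) : Prop :=
  𝔞 ≠ ⊥ ∧ ∀ q : HeightOneSpectrum (𝓞 K), Sum.inr q ∈ S → ¬ 𝔞 ≤ q.asIdeal

variable {H}

/-- `a` is the Artin map `𝔞 ↦ (𝔞, H / K)` on the ideals prime to `S`: it is multiplicative, and at
a prime `q` outside `S` its value is the Frobenius automorphism:
`a q x ≡ x ^ N q` modulo all primes `P` of `H` over `q`, for all integers `x` of `H`. -/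
structure IsArtin (S : Finset (Place K)) (a : Ideal (𝓞 K) → Gal(H/K)) : Prop where
  one : a ⊤ = 1
  mul : ∀ 𝔞 𝔟, PrimeTo S 𝔞 → PrimeTo S 𝔟 → a (𝔞 * 𝔟) = a 𝔞 * a 𝔟
  frob : ∀ q : HeightOneSpectrum (𝓞 K), Sum.inr q ∉ S → ∀ P : HeightOneSpectrum (𝓞 H),
    P.asIdeal.LiesOver q.asIdeal → ∀ x y : 𝓞 H,
      (y : H) = a q.asIdeal (x : H) - (x : H) ^ Ideal.absNorm q.asIdeal → y ∈ P.asIdeal

open Classical in
/-- `Z` is the partial zeta function `ζ_S(g, s)` (for the Artin map `a`): it is holomorphic on
`ℂ \ {1}`, and for `Re s > 1` it is the sum of `N 𝔞 ^ (-s)` over the nonzero ideals `𝔞` prime to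
`S` with Artin symbol `g`. -/
structure IsZeta (S : Finset (Place K)) (a : Ideal (𝓞 K) → Gal(H/K)) (g : Gal(H/K))
    (Z : ℂ → ℂ) : Prop where
  hol : DifferentiableOn ℂ Z {1}ᶜ
  sum : ∀ s : ℂ, 1 < s.re → HasSum (fun 𝔞 : Ideal (𝓞 K) =>
    if PrimeTo S 𝔞 ∧ a 𝔞 = g then ((Ideal.absNorm 𝔞 : ℂ)) ^ (-s) else 0) (Z s)

/-- The group `U^T` for `T = S \ {p}`. -/
structure InU (S : Finset (Place K)) (p : Place K) (α : H) : Prop where
  ne : α ≠ 0
  out : ∀ q, q ∉ S → ∀ Q : Place H, Over K H Q q → nabs Q α = 1
  many : 3 ≤ S.card → ∀ q ∈ S, q ≠ p → ∀ Q : Place H, Over K H Q q → nabs Q α = 1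
  single : S.card = 2 → ∀ q ∈ S, q ≠ p → ∀ Q Q' : Place H, Over K H Q q → Over K H Q' q →
    nabs Q α = nabs Q' α

variable (H)

/-- The number of the roots of unity in `H`. -/
noncomputable def W : ℕ := Nat.card (CommGroup.torsion Hˣ)

variable {H}

/-- `H(α^(1/w)) / K` is abelian: there are an abelian extension `M` of `K` which contains `H` and
is generated over `H` by an element `z` with `z ^ w = α`. -/
def AbRoot (K : Type) [Field K] [NumberField K] [Algebra K H] (w : ℕ) (α : H) : Prop :=
  ∃ (M : Type) (_ : Field M) (_ : Algebra K M) (_ : Algebra H M) (_ : IsScalarTower K H M),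
    IsAbelianGalois K M ∧ ∃ z : M, z ^ w = algebraMap H M α ∧ IntermediateField.adjoin H {z} = ⊤

variable (K H)

/-- `c` times the conjecture for `H / K`, `S`, `p` (`c = 1` is the conjecture): for every place
`P` over `p` there is `ε ∈ U^T` with `log |g ε|_P = - c W ζ_S'(g, 0)` for all `g`, such that
`H(ε^(1/W)) / K` is abelian. -/
def StarkMul (c : ℤ) (S : Finset (Place K)) (p : Place K) : Prop :=
  ∀ P : Place H, Over K H P p → ∀ a : Ideal (𝓞 K) → Gal(H/K), IsArtin S a →
    ∀ Z : Gal(H/K) → ℂ → ℂ, (∀ g, IsZeta S a g (Z g)) →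
      ∃ ε : H, InU S p ε ∧
        (∀ g : Gal(H/K), (Real.log (nabs P (g ε)) : ℂ) = -(c * W H * deriv (Z g) 0)) ∧
        AbRoot K (W H) ε

/-- **The rank one abelian Stark conjecture in Tate's form** for `H / K`, `S`, `p`: for every
place `P` of `H` over `p` there is `ε ∈ U^T` with `log |g ε|_P = - W ζ_S'(g, 0)` for all
`g ∈ Gal(H/K)`, such that `H(ε^(1/W)) / K` is abelian. -/
def Stark (S : Finset (Place K)) (p : Place K) : Prop :=
  ∀ P : Place H, Over K H P p → ∀ a : Ideal (𝓞 K) → Gal(H/K), IsArtin S a →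
    ∀ Z : Gal(H/K) → ℂ → ℂ, (∀ g, IsZeta S a g (Z g)) →
      ∃ ε : H, InU S p ε ∧
        (∀ g : Gal(H/K), (Real.log (nabs P (g ε)) : ℂ) = -(W H * deriv (Z g) 0)) ∧
        AbRoot K (W H) ε

/-- **The `l`-part of the conjecture** for `H / K`, `S`, `p`: some multiple of the conjecture by
an integer prime to `l` holds. -/
def StarkPart (l : ℕ) (S : Finset (Place K)) (p : Place K) : Prop :=
  ∃ c : ℤ, ¬ (l : ℤ) ∣ c ∧ StarkMul K H c S p

end ext

/-- For all primes `m ≠ l` the Sylow `m`-subgroups of `G` are cyclic. For an abelian group `G` this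
means that `G` is the product of an `l`-group and a cyclic group of order prime to `l`. -/
def CyclicOutside (l : ℕ) (G : Type) [Group G] : Prop :=
  ∀ m : ℕ, m.Prime → m ≠ l → ∀ P : Sylow m G, IsCyclic P

end Pool.Agent.N598.ST
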