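import Mathlib

set_option autoImplicit false

namespace Pool.Agent.N598.ST

open MonoidAlgebra

section ga

variable {G Q : Type} [CommGroup G] [Fintype G] [CommGroup Q] [Fintype Q]

omit [CommGroup G] [Fintype G] in
theorem ga_ext {x y : MonoidAlgebra ℂ G} (h : ∀ g, x.coeff g = y.coeff g) : x = y :=
  MonoidAlgebra.ext (Finsupp.ext h)

theorem coeff_mul_fin (x y : MonoidAlgebra ℂ G) (g : G) :
    (x * y).coeff g = ∑ h : G, x.coeff h * y.coeff (h⁻¹ * g) := by
  rw [MonoidAlgebra.coeff_mul_apply_left, Finsupp.sum_fintype _ _ (by simp)]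

/-- the projection of group algebras -/
noncomputable def pr (ρ : G →* Q) : MonoidAlgebra ℂ G →+* MonoidAlgebra ℂ Q :=
  MonoidAlgebra.mapDomainRingHom ℂ ρ

theorem pr_single (ρ : G →* Q) (g : G) (c : ℂ) : pr ρ (single g c) = single (ρ g) c := by
  simp [pr]

open Classical in
theorem pr_coeff (ρ : G →* Q) (x : MonoidAlgebra ℂ G) (u : Q) :
    (pr ρ x).coeff u = ∑ g : G, if ρ g = u then x.coeff g else 0 := by
  have hx : x = ∑ g : G, single g (x.coeff g) := by
    refine ga_ext fun h => ?_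
    rw [MonoidAlgebra.coeff_sum]
    simp [Finsupp.single_apply]
  conv_lhs => rw [hx, map_sum]
  rw [MonoidAlgebra.coeff_sum]
  simp [pr_single, Finsupp.single_apply]

/-- the lift of group algebras: `u ↦ ∑_{g ↦ u} g` -/
noncomputable def iota (ρ : G →* Q) (x : MonoidAlgebra ℂ Q) : MonoidAlgebra ℂ G :=
  ofCoeff (Finsupp.equivFunOnFinite.symm fun g => x.coeff (ρ g))

theorem iota_coeff (ρ : G →* Q) (x : MonoidAlgebra ℂ Q) (g : G) :
    (iota ρ x).coeff g = x.coeff (ρ g) := rfl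

theorem iota_add (ρ : G →* Q) (x y : MonoidAlgebra ℂ Q) :
    iota ρ (x + y) = iota ρ x + iota ρ y := by
  refine ga_ext fun g => ?_
  simp [iota_coeff]

theorem iota_zero (ρ : G →* Q) : iota ρ 0 = 0 := by
  refine ga_ext fun g => ?_
  simp [iota_coeff]

theorem iota_smul (ρ : G →* Q) (c : ℂ) (x : MonoidAlgebra ℂ Q) :
    iota ρ (c • x) = c • iota ρ x := by
  refine ga_ext fun g => ?_
  simp [iota_coeff]

theorem iota_inj (ρ : G →* Q) (hρ : Function.Surjective ρ) : Function.Injective (iota ρ) := by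
  intro x y h
  refine ga_ext fun u => ?_
  obtain ⟨g, rfl⟩ := hρ u
  rw [← iota_coeff, ← iota_coeff, h]

theorem mul_iota (ρ : G →* Q) (y : MonoidAlgebra ℂ G) (x : MonoidAlgebra ℂ Q) :
    y * iota ρ x = iota ρ (pr ρ y * x) := by
  classical
  refine ga_ext fun g => ?_
  rw [iota_coeff, coeff_mul_fin, coeff_mul_fin]
  simp only [iota_coeff, pr_coeff, Finset.sum_mul]
  rw [Finset.sum_comm]
  refine Finset.sum_congr rfl fun h _ => ?_
  rw [Finset.sum_eq_single (ρ h)]
  · simp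
  · intro u _ hu
    rw [if_neg (Ne.symm hu), zero_mul]
  · intro h; exact absurd (Finset.mem_univ _) h

open Classical in
/-- the order of the kernel -/
noncomputable def ker (ρ : G →* Q) : ℕ := (Finset.univ.filter (fun g : G => ρ g = 1)).card

theorem ker_ne (ρ : G →* Q) : (ker ρ : ℂ) ≠ 0 := by
  have : 0 < ker ρ := Finset.card_pos.2 ⟨1, by simp⟩
  exact_mod_cast this.ne'

theorem pr_iota (ρ : G →* Q) (hρ : Function.Surjective ρ) (x : MonoidAlgebra ℂ Q) :
    pr ρ (iota ρ x) = (ker ρ : ℂ) • x := by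
  classical
  refine ga_ext fun u => ?_
  obtain ⟨g0, rfl⟩ := hρ u
  rw [pr_coeff]
  have h1 : ∀ g : G, (if ρ g = ρ g0 then (iota ρ x).coeff g else 0) =
      (if ρ g = ρ g0 then (1 : ℂ) else 0) * x.coeff (ρ g0) := by
    intro g
    split_ifs with h
    · rw [iota_coeff, h, one_mul]
    · rw [zero_mul]
  rw [Finset.sum_congr rfl fun g _ => h1 g, ← Finset.sum_mul, Finset.sum_boole]
  have h2 : (Finset.univ.filter (fun g : G => ρ g = ρ g0)).card = ker ρ := by
    apply Finset.card_nbij' (fun g => g * g0⁻¹) (fun g => g * g0)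
    · intro g hg
      simp only [Finset.coe_filter, Finset.mem_univ, true_and, Set.mem_ofPred_eq] at hg ⊢
      rw [map_mul, map_inv, hg, mul_inv_cancel]
    · intro g hg
      simp only [Finset.coe_filter, Finset.mem_univ, true_and, Set.mem_ofPred_eq] at hg ⊢
      rw [map_mul, hg, one_mul]
    · intro g _; simp
    · intro g _; simp
  rw [h2]
  rfl

theorem iota_mul (ρ : G →* Q) (hρ : Function.Surjective ρ) (x y : MonoidAlgebra ℂ Q) :
    iota ρ x * iota ρ y = (ker ρ : ℂ) • iota ρ (x * y) := by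
  rw [mul_iota, pr_iota ρ hρ, smul_mul_assoc, iota_smul]

theorem det_iota (ρ : G →* Q) (hρ : Function.Surjective ρ) (r : ℕ)
    (M : Matrix (Fin (r + 1)) (Fin (r + 1)) (MonoidAlgebra ℂ Q)) :
    (M.map (iota ρ)).det = ((ker ρ : ℂ) ^ r) • iota ρ M.det := by
  set ν := iota ρ 1 with hν
  let M' : Matrix (Fin (r + 1)) (Fin (r + 1)) (MonoidAlgebra ℂ G) :=
    M.map (fun x => ((ker ρ : ℂ)⁻¹) • iota ρ x)
  have hsm : ∀ x, pr ρ (((ker ρ : ℂ)⁻¹) • iota ρ x) = x := by
    intro x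
    rw [← iota_smul, pr_iota ρ hρ, smul_smul, mul_inv_cancel₀ (ker_ne ρ), one_smul]
  have h1 : M.map (iota ρ) = ν • M' := by
    ext1 i j
    change iota ρ (M i j) = ν * (((ker ρ : ℂ)⁻¹) • iota ρ (M i j))
    rw [mul_comm, hν, mul_iota, hsm, mul_one]
  have h2 : ∀ k : ℕ, ν ^ (k + 1) = ((ker ρ : ℂ) ^ k) • ν := by
    intro k
    induction k with
    | zero => simp
    | succ k ih =>
      rw [pow_succ, ih, smul_mul_assoc, hν, iota_mul ρ hρ, mul_one, smul_smul, ← pow_succ]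
  rw [h1, Matrix.det_smul, Fintype.card_fin, h2, smul_mul_assoc, mul_comm, hν, mul_iota, mul_one,
    RingHom.map_det]
  congr 3
  ext1 i j
  exact hsm (M i j)

theorem term_iota (ρ : G →* Q) (hρ : Function.Surjective ρ) (r : ℕ) (a : MonoidAlgebra ℂ Q)
    (M : Matrix (Fin (r + 1)) (Fin (r + 1)) (MonoidAlgebra ℂ Q)) :
    ((((ker ρ : ℂ)⁻¹) ^ (r + 1)) • iota ρ a) * (M.map (iota ρ)).det = iota ρ (a * M.det) := by
  rw [det_iota ρ hρ, smul_mul_assoc, mul_smul_comm, iota_mul ρ hρ, smul_smul, smul_smul]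
  have hk := ker_ne ρ
  have : ((ker ρ : ℂ)⁻¹) ^ (r + 1) * (ker ρ : ℂ) ^ r * (ker ρ : ℂ) = 1 := by
    rw [mul_assoc, ← pow_succ, inv_pow, inv_mul_cancel₀ (pow_ne_zero _ hk)]
  rw [this, one_smul]

end ga

end Pool.Agent.N598.ST
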