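import Pool.Agent.N598.ST.Main

set_option autoImplicit false

namespace Pool.Agent.N598.ST

open NumberField IsDedekindDomain

/-- The principle: `M H c` are multiples `c` of a statement for `H / K`. -/
theorem part_principle {K : Type} [Field K] [NumberField K]
    (M : ∀ (H : Type) [Field H] [NumberField H] [Algebra K H] [IsAbelianGalois K H], ℤ → Prop)
    (D : ∀ (H : Type) [Field H] [NumberField H] [Algebra K H] [IsAbelianGalois K H], Prop)
    (hsub : ∀ (H : Type) [Field H] [NumberField H] [Algebra K H] [IsAbelianGalois K H], D H →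
      ∀ N : Subgroup Gal(H/K), D (IntermediateField.fixedField N))
    (hmul : ∀ (H : Type) [Field H] [NumberField H] [Algebra K H] [IsAbelianGalois K H],
      ∀ c k : ℤ, M H c → M H (k * c))
    (hprime : ∀ (H : Type) [Field H] [NumberField H] [Algebra K H] [IsAbelianGalois K H], D H →
      ∀ c : ℤ, (∀ N : Subgroup Gal(H/K), N ≠ ⊥ → M (IntermediateField.fixedField N) c) →
      ∀ m : ℕ, m.Prime → ∀ V : Subgroup Gal(H/K), Nat.card V = m ^ 2 → (∀ t ∈ V, t ^ m = 1) →
        M H (c * m))
    (l : ℕ) (hl : l.Prime) (n : ℕ) :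
    ∀ (H : Type) [Field H] [NumberField H] [Algebra K H] [IsAbelianGalois K H],
      Module.finrank K H = n → D H →
      (∀ (L : Type) [Field L] [NumberField L] [Algebra K L] [IsAbelianGalois K L],
        Nonempty (L →ₐ[K] H) → CyclicOutside l Gal(L/K) → ∃ c : ℤ, ¬ (l : ℤ) ∣ c ∧ M L c) →
      ∃ c : ℤ, ¬ (l : ℤ) ∣ c ∧ M H c := by
  induction n using Nat.strong_induction_on with
  | _ n ih =>
    intro H _ _ _ _ hn hp hyp
    by_cases hone : CyclicOutside l Gal(H/K)
    · exact hyp H ⟨AlgHom.id K H⟩ hone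
    unfold CyclicOutside at hone
    push Not at hone
    obtain ⟨m, hm, hlm, hPm⟩ := hone
    have hc : ∀ a b : Gal(H/K), a * b = b * a :=
      fun a b => (IsMulCommutative.is_comm (M := Gal(H/K))).comm a b
    obtain ⟨V, hV, hV2⟩ := exists_V hc m hm (by push Not; exact hPm)
    have hF : ∀ N : Subgroup Gal(H/K), ∃ c : ℤ, ¬ (l : ℤ) ∣ c ∧ (N ≠ ⊥ →
        M (IntermediateField.fixedField N) c) := by
      intro N
      by_cases hN : N = ⊥
      · refine ⟨1, fun h1 => ?_, fun h => absurd hN h⟩
        have : l ∣ 1 := by exact_mod_cast h1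
        exact hl.one_lt.ne' (Nat.dvd_one.1 this)
      have hlt : Module.finrank K (IntermediateField.fixedField N) < n := by
        have h1 := Module.finrank_mul_finrank K (IntermediateField.fixedField N) H
        rw [IntermediateField.finrank_fixedField_eq_card] at h1
        have h2 : 1 < Nat.card N := by
          rw [Subgroup.one_lt_card_iff_ne_bot]; exact hN
        have h3 : 0 < Module.finrank K (IntermediateField.fixedField N) := Module.finrank_pos
        rw [hn] at h1
        nlinarith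
      obtain ⟨c, hc1, hc2⟩ := ih _ hlt (IntermediateField.fixedField N) rfl (hsub H hp N) (by
        intro L _ _ _ _ hL hone
        obtain ⟨f⟩ := hL
        exact hyp L ⟨(IntermediateField.fixedField N).val.comp f⟩ hone)
      exact ⟨c, hc1, fun _ => hc2⟩
    choose c hc1 hc2 using hF
    classical
    have hpl : Prime (l : ℤ) := Nat.prime_iff_prime_int.1 hl
    refine ⟨(∏ N : Subgroup Gal(H/K), c N) * m, ?_, ?_⟩
    · intro h
      rcases hpl.dvd_or_dvd h with h | h
      · obtain ⟨N, -, hN⟩ := (Prime.dvd_finsetProd_iff hpl _).1 h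
        exact hc1 N hN
      · have : l ∣ m := by exact_mod_cast h
        exact hlm ((Nat.prime_dvd_prime_iff_eq hl hm).1 this).symm
    · refine hprime H hp _ (fun N hN => ?_) m hm V hV hV2
      have h1 : c N ∣ ∏ N : Subgroup Gal(H/K), c N := Finset.dvd_prod_of_mem c (Finset.mem_univ N)
      obtain ⟨k, hk⟩ := h1
      rw [hk, mul_comm]
      exact hmul _ _ k (hc2 N hN)

/-- a subgroup of `ℤ` which has for all primes `l` a member prime to `l` contains `1` -/
theorem one_of_parts (I : AddSubgroup ℤ) (h : ∀ l : ℕ, l.Prime → ∃ c : ℤ, ¬ (l : ℤ) ∣ c ∧ c ∈ I) :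
    (1 : ℤ) ∈ I := by
  obtain ⟨n, hn⟩ := Int.subgroup_cyclic I
  have hmem : ∀ c : ℤ, c ∈ I ↔ n ∣ c := by
    intro c
    rw [← Int.mem_zmultiples_iff, AddSubgroup.zmultiples_eq_closure, ← hn]
  by_contra h1
  rw [hmem] at h1
  have hne : n.natAbs ≠ 1 := fun h2 => h1 (Int.isUnit_iff_natAbs_eq.2 h2).dvd
  obtain ⟨l, hl, hln⟩ := Nat.exists_prime_and_dvd hne
  obtain ⟨c, hc, hc2⟩ := h l hl
  exact hc ((Int.natCast_dvd.2 hln).trans ((hmem c).1 hc2))

end Pool.Agent.N598.ST
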