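import Pool.Agent.N598.ST.Def

set_option autoImplicit false

namespace Pool.Agent.N598.ST

/-- the elements killed by `l ^ k` -/
theorem card_kill {G : Type} [CommGroup G] [Fintype G] [DecidableEq G] (l : ℕ)
    (h : (Finset.univ.filter (fun a : G => a ^ l = 1)).card ≤ l) (k : ℕ) :
    (Finset.univ.filter (fun a : G => a ^ (l ^ k) = 1)).card ≤ l ^ k := by
  induction k with
  | zero => simp [Finset.filter_eq']
  | succ k ih =>
    have h1 : (Finset.univ.filter (fun a : G => a ^ (l ^ (k + 1)) = 1)).card ≤
        l * (Finset.univ.filter (fun a : G => a ^ (l ^ k) = 1)).card := by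
      apply Finset.card_le_mul_card_image_of_maps_to (f := fun a => a ^ l)
      · intro a ha
        simp only [Finset.mem_filter, Finset.mem_univ, true_and] at ha ⊢
        rw [← pow_mul, ← pow_succ']; exact ha
      · intro b _
        rcases (Finset.filter (fun a => a ^ l = b)
          (Finset.univ.filter (fun a : G => a ^ (l ^ (k + 1)) = 1))).eq_empty_or_nonempty with h0 | h0
        · rw [h0]; simp
        · obtain ⟨a0, ha0⟩ := h0
          simp only [Finset.mem_filter, Finset.mem_univ, true_and] at ha0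
          refine le_trans ?_ h
          apply Finset.card_le_card_of_injOn (fun a => a * a0⁻¹)
          · intro a ha
            simp only [Finset.coe_filter, Finset.mem_filter, Finset.mem_univ, true_and,
              Set.mem_ofPred_eq] at ha ⊢
            rw [mul_pow, inv_pow, ha.2, ha0.2, mul_inv_cancel]
          · intro a _ b _ hab
            exact mul_right_cancel hab
    calc _ ≤ _ := h1
      _ ≤ l * l ^ k := Nat.mul_le_mul_left _ ih
      _ = l ^ (k + 1) := (pow_succ' l k).symm

theorem cyclic_of_kill {P : Type} [CommGroup P] [Finite P] (l : ℕ) (hl : l.Prime) (hP : IsPGroup l P)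
    (h : Nat.card {a : P // a ^ l = 1} ≤ l) : IsCyclic P := by
  classical
  have : Fintype P := Fintype.ofFinite P
  have h' : (Finset.univ.filter (fun a : P => a ^ l = 1)).card ≤ l := by
    rwa [Nat.card_eq_fintype_card, Fintype.card_subtype] at h
  apply isCyclic_of_card_pow_eq_one_le
  intro n hn
  set k := n.factorization l
  calc _ ≤ (Finset.univ.filter (fun a : P => a ^ (l ^ k) = 1)).card := by
        apply Finset.card_le_card
        intro a ha
        simp only [Finset.mem_filter, Finset.mem_univ, true_and] at ha ⊢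
        obtain ⟨j, hj⟩ := hP a
        obtain ⟨i, -, hi⟩ := (Nat.dvd_prime_pow hl).1 (orderOf_dvd_of_pow_eq_one hj)
        have h2 := orderOf_dvd_of_pow_eq_one ha
        rw [hi] at h2
        have h3 : i ≤ k := (hl.pow_dvd_iff_le_factorization hn.ne').1 h2
        apply orderOf_dvd_iff_pow_eq_one.1
        rw [hi]
        exact pow_dvd_pow l h3
    _ ≤ l ^ k := card_kill l h' k
    _ ≤ n := Nat.le_of_dvd hn (Nat.ordProj_dvd n l)

/-- a noncyclic Sylow `l`-subgroup contains an elementary abelian group of order `l²` -/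
theorem exists_V {G : Type} [Group G] [Finite G] (hc : ∀ a b : G, a * b = b * a) (l : ℕ)
    (hl : l.Prime) (h : ¬ ∀ P : Sylow l G, IsCyclic P) :
    ∃ V : Subgroup G, Nat.card V = l ^ 2 ∧ ∀ t ∈ V, t ^ l = 1 := by
  have : Fact l.Prime := ⟨hl⟩
  push Not at h
  obtain ⟨P, hP⟩ := h
  let A : Subgroup G :=
    { carrier := {t | t ^ l = 1}
      mul_mem' := fun {a b} ha hb => by
        change (a * b) ^ l = 1
        rw [Commute.mul_pow (hc a b), ha, hb, one_mul]
      one_mem' := one_pow l
      inv_mem' := fun {a} ha => by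
        change (a⁻¹) ^ l = 1
        rw [inv_pow, ha, inv_one] }
  have hA : ∀ t, t ∈ A ↔ t ^ l = 1 := fun t => Iff.rfl
  have hpA : IsPGroup l A := fun a => ⟨1, Subtype.ext (by rw [pow_one]; exact a.2)⟩
  obtain ⟨n, hn⟩ := IsPGroup.iff_card.1 hpA
  by_cases h2 : 2 ≤ n
  · obtain ⟨V, hV⟩ := Sylow.exists_subgroup_card_pow_prime (G := A) l (n := 2)
      (hn ▸ pow_dvd_pow l h2)
    refine ⟨V.map A.subtype, ?_, ?_⟩
    · rw [← hV]
      exact (Nat.card_congr (V.equivMapOfInjective _ A.subtype_injective).toEquiv).symm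
    · intro t ht
      obtain ⟨v, -, rfl⟩ := ht
      exact v.2
  · exfalso
    apply hP
    let : CommGroup P := { (inferInstance : Group P) with mul_comm := fun a b => Subtype.ext (hc _ _) }
    refine cyclic_of_kill l hl P.2 ?_
    have h3 : Nat.card {a : P // a ^ l = 1} ≤ Nat.card A := by
      apply Nat.card_le_card_of_injective (fun a => (⟨(a.1 : G), by
        have := congrArg Subtype.val a.2
        exact this⟩ : A))
      intro a b hab
      have h4 : (a.1 : G) = (b.1 : G) := congrArg (fun z : A => (z : G)) hab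
      exact Subtype.ext (Subtype.ext h4)
    refine h3.trans ?_
    rw [hn]
    calc l ^ n ≤ l ^ 1 := Nat.pow_le_pow_right hl.pos (by omega)
      _ = l := pow_one l

open Classical in
/-- the relation of the norm elements of `V` and of its subgroups of order `l` -/
theorem relation {G : Type} [Group G] [Fintype G] (l : ℕ) (hl : l.Prime) (V : Subgroup G)
    (hV : Nat.card V = l ^ 2) (hV2 : ∀ t ∈ V, t ^ l = 1) (t : G) :
    (∑ N : Subgroup G, if N ≤ V ∧ Nat.card N = l then (if t ∈ N then (1 : ℤ) else 0) else 0) =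
      (if t ∈ V then 1 else 0) + (if t = 1 then (l : ℤ) else 0) := by
  set 𝒩 : Finset (Subgroup G) := Finset.univ.filter (fun N => N ≤ V ∧ Nat.card N = l) with h𝒩
  have hs : ∀ t : G, (∑ N : Subgroup G, if N ≤ V ∧ Nat.card N = l then
      (if t ∈ N then (1 : ℤ) else 0) else 0) = ∑ N ∈ 𝒩, if t ∈ N then (1 : ℤ) else 0 := by
    intro t
    rw [Finset.sum_filter]
  have hmem : ∀ N, N ∈ 𝒩 ↔ N ≤ V ∧ Nat.card N = l := by intro N; simp [h𝒩]
  -- nontrivial elements
  have h1 : ∀ t : G, t ≠ 1 → (∑ N ∈ 𝒩, if t ∈ N then (1 : ℤ) else 0) = if t ∈ V then 1 else 0 := by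
    intro t ht
    split_ifs with hV'
    · have ho : orderOf t = l := by
        rcases (Nat.dvd_prime hl).1 (orderOf_dvd_of_pow_eq_one (hV2 t hV')) with h | h
        · exact absurd (orderOf_eq_one_iff.1 h) ht
        · exact h
      rw [Finset.sum_eq_single (Subgroup.zpowers t)]
      · rw [if_pos (Subgroup.mem_zpowers t)]
      · intro N hN hne
        rw [if_neg]
        intro htN
        apply hne
        have hle : Subgroup.zpowers t ≤ N := Subgroup.zpowers_le.2 htN
        exact (Subgroup.eq_of_le_of_card_ge hle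
          (by rw [Nat.card_zpowers, ho, ((hmem N).1 hN).2])).symm
      · intro hne
        exact absurd ((hmem _).2 ⟨Subgroup.zpowers_le.2 hV', by rw [Nat.card_zpowers, ho]⟩) hne
    · apply Finset.sum_eq_zero
      intro N hN
      rw [if_neg]
      exact fun h => hV' (((hmem N).1 hN).1 h)
  -- double counting
  have h2 : ∑ t : G, ∑ N ∈ 𝒩, (if t ∈ N then (1 : ℤ) else 0) = 𝒩.card * l := by
    rw [Finset.sum_comm]
    rw [Finset.sum_congr rfl (g := fun _ => (l : ℤ))]
    · simp
    · intro N hN
      rw [Finset.sum_boole]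
      have : (Finset.univ.filter (fun x : G => x ∈ N)).card = Nat.card N := by
        rw [Nat.card_eq_fintype_card, Fintype.card_subtype]
      rw [this, ((hmem N).1 hN).2]
  have h3 : ∑ t : G, ∑ N ∈ 𝒩, (if t ∈ N then (1 : ℤ) else 0) = 𝒩.card + (l ^ 2 - 1) := by
    rw [← Finset.add_sum_erase _ _ (Finset.mem_univ (1 : G))]
    congr 1
    · rw [Finset.sum_boole]
      simp [Subgroup.one_mem]
    · have e : ∑ x ∈ Finset.univ.erase (1 : G), (∑ N ∈ 𝒩, if x ∈ N then (1 : ℤ) else 0) =
          ∑ x ∈ Finset.univ.erase (1 : G), (if x ∈ V then (1 : ℤ) else 0) :=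
        Finset.sum_congr rfl fun x hx => h1 x (Finset.ne_of_mem_erase hx)
      rw [e]
      have e2 : ∑ x : G, (if x ∈ V then (1 : ℤ) else 0) = l ^ 2 := by
        rw [Finset.sum_boole]
        have : (Finset.univ.filter (fun x : G => x ∈ V)).card = Nat.card V := by
          rw [Nat.card_eq_fintype_card, Fintype.card_subtype]
        rw [this, hV]; push_cast; rfl
      rw [← Finset.add_sum_erase _ _ (Finset.mem_univ (1 : G)), if_pos V.one_mem] at e2
      linarith
  have hl1 : (1 : ℤ) < l := by exact_mod_cast hl.one_lt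
  have h4 : (𝒩.card : ℤ) = l + 1 := by
    have h5 : (𝒩.card : ℤ) * (l - 1) = (l + 1) * (l - 1) := by rw [h3] at h2; nlinarith
    exact mul_right_cancel₀ (by linarith) h5
  rw [hs]
  by_cases ht : t = 1
  · subst ht
    rw [Finset.sum_boole]
    have : 𝒩.filter (fun N => (1 : G) ∈ N) = 𝒩 := Finset.filter_true_of_mem fun N _ => N.one_mem
    rw [this, if_pos V.one_mem, if_pos rfl]
    rw [h4]; ring
  · rw [h1 t ht, if_neg ht, add_zero]

end Pool.Agent.N598.ST
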