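import Pool.Agent.N598.ST.Def

set_option autoImplicit false

namespace Pool.Agent.N598.ST

open NumberField IsDedekindDomain

section one
variable {K : Type} [Field K] [NumberField K]

theorem nabs_mul (P : Place K) (x y : K) : nabs P (x * y) = nabs P x * nabs P y := by
  cases P with
  | inl w => simp [nabs, mul_pow]
  | inr P => simp [nabs]

theorem nabs_one (P : Place K) : nabs P (1 : K) = 1 := by
  cases P with
  | inl w => simp [nabs]
  | inr P => simp [nabs]

theorem nabs_pos (P : Place K) {x : K} (hx : x ≠ 0) : 0 < nabs P x := by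
  cases P with
  | inl w => exact pow_pos (w.pos_iff.2 hx) _
  | inr P => exact (HeightOneSpectrum.adicAbv K P).pos hx

theorem nabs_inv (P : Place K) (x : K) : nabs P x⁻¹ = (nabs P x)⁻¹ := by
  cases P with
  | inl w => simp [nabs, inv_pow]
  | inr P => simp [nabs]

end one

variable {K F H : Type} [Field K] [NumberField K] [Field F] [NumberField F] [Field H]
  [NumberField H] [Algebra K F] [Algebra F H] [Algebra K H] [IsScalarTower K F H]

omit [NumberField K] [NumberField F] [NumberField H] in
theorem comap_tower (w : InfinitePlace H) :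
    (w.comap (algebraMap F H)).comap (algebraMap K F) = w.comap (algebraMap K H) := by
  rw [← InfinitePlace.comap_comp, ← IsScalarTower.algebraMap_eq]

/-- restriction of places -/
theorem exists_mid (P : Place H) (p : Place K) (h : Over K H P p) :
    ∃ P' : Place F, Over F H P P' ∧ Over K F P' p := by
  match P, p, h with
  | .inl w, .inl v, h =>
    refine ⟨.inl (w.comap (algebraMap F H)), rfl, ?_⟩
    change (w.comap (algebraMap F H)).comap (algebraMap K F) = v
    rw [comap_tower]; exact h
  | .inr P, .inr p, h =>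
    have hP : P.asIdeal.LiesOver p.asIdeal := h
    have hne : P.asIdeal.under (𝓞 F) ≠ ⊥ := by
      intro h0
      have h1 : (P.asIdeal.under (𝓞 F)).under (𝓞 K) = P.asIdeal.under (𝓞 K) := Ideal.under_under _
      rw [← hP.over, h0, Ideal.under_bot] at h1
      exact p.ne_bot h1.symm
    have hpr : (P.asIdeal.under (𝓞 F)).IsPrime := Ideal.IsPrime.under _ _
    refine ⟨.inr ⟨P.asIdeal.under (𝓞 F), hpr, hne⟩, ⟨rfl⟩, ⟨?_⟩⟩
    change p.asIdeal = (P.asIdeal.under (𝓞 F)).under (𝓞 K)
    rw [Ideal.under_under]; exact hP.over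

omit [NumberField K] [Algebra K F] [Algebra K H] [IsScalarTower K F H] [Field K] in
/-- every place of `F` extends to `H` -/
theorem exists_top (P' : Place F) : ∃ P : Place H, Over F H P P' := by
  match P' with
  | .inl w =>
    obtain ⟨w', hw'⟩ := InfinitePlace.comap_surjective (k := F) (K := H) w
    exact ⟨.inl w', hw'⟩
  | .inr p =>
    obtain ⟨Q, hQ, hQ2⟩ := Ideal.exists_maximal_ideal_liesOver_of_isIntegral (S := 𝓞 H) p.asIdeal
    refine ⟨.inr ⟨Q, hQ.isPrime, ?_⟩, hQ2⟩
    intro h0
    subst h0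
    exact p.ne_bot (by rw [hQ2.over, Ideal.under_bot])

theorem over_trans {P : Place H} {P' : Place F} {p : Place K} (h : Over F H P P')
    (h' : Over K F P' p) : Over K H P p := by
  match P, P', p, h, h' with
  | .inl w, .inl w', .inl v, h, h' =>
    change w.comap (algebraMap K H) = v
    rw [← comap_tower (F := F)]
    have h : w.comap (algebraMap F H) = w' := h
    rw [h]; exact h'
  | .inr P, .inr P', .inr p, h, h' =>
    have h1 : P.asIdeal.LiesOver P'.asIdeal := h
    have h2 : P'.asIdeal.LiesOver p.asIdeal := h'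
    exact Ideal.LiesOver.trans P.asIdeal P'.asIdeal p.asIdeal

/-- the local degree -/
noncomputable def ldeg (K : Type) {H : Type} [Field K] [NumberField K] [Field H] [NumberField H]
    [Algebra K H] : Place H → ℕ
  | .inl w => w.mult / (w.comap (algebraMap K H)).mult
  | .inr P => P.asIdeal.ramificationIdx (𝓞 K) * P.asIdeal.inertiaDeg (𝓞 K)

theorem mult_div (w : InfinitePlace H) :
    w.mult = (w.comap (algebraMap K H)).mult * (w.mult / (w.comap (algebraMap K H)).mult) := by
  have h := InfinitePlace.mult_comap_le (algebraMap K H) w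
  have h1 : (w.comap (algebraMap K H)).mult = 1 ∨ (w.comap (algebraMap K H)).mult = 2 := by
    unfold InfinitePlace.mult; split_ifs <;> simp
  have h2 : w.mult = 1 ∨ w.mult = 2 := by
    unfold InfinitePlace.mult; split_ifs <;> simp
  rcases h1 with h1 | h1 <;> rcases h2 with h2 | h2 <;> rw [h1, h2] at h ⊢ <;> omega

open WithZeroMulInt in
theorem toNN_pow (b c : NNReal) (f : ℕ) (hb : b ≠ 0) (hf : f ≠ 0) (h : c = b ^ f) {hc : c ≠ 0}
    (y : WithZero (Multiplicative ℤ)) : toNNReal hc y = toNNReal hb y ^ f := by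
  subst h
  by_cases hy : y = 0
  · subst hy; simp [hf]
  · rw [toNNReal_neg_apply _ hy, toNNReal_neg_apply _ hy, ← zpow_natCast, ← zpow_mul,
      ← zpow_natCast, ← zpow_mul, mul_comm]

theorem nabs_mid (P : Place H) (P' : Place F) (h : Over F H P P') (x : F) :
    nabs P (algebraMap F H x) = nabs P' x ^ ldeg F P := by
  match P, P', h with
  | .inl w, .inl w', h =>
    have h : w.comap (algebraMap F H) = w' := h
    subst h
    change w (algebraMap F H x) ^ w.mult = ((w.comap (algebraMap F H)) x ^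
      (w.comap (algebraMap F H)).mult) ^ (w.mult / (w.comap (algebraMap F H)).mult)
    rw [← pow_mul, ← mult_div (K := F) w]
    rfl
  | .inr P, .inr P', h =>
    have hP : P.asIdeal.LiesOver P'.asIdeal := h
    change HeightOneSpectrum.adicAbv H P (algebraMap F H x) =
      HeightOneSpectrum.adicAbv F P' x ^ (P.asIdeal.ramificationIdx (𝓞 F) *
        P.asIdeal.inertiaDeg (𝓞 F))
    have hN : Ideal.absNorm P'.asIdeal ^ P.asIdeal.inertiaDeg (𝓞 F) = Ideal.absNorm P.asIdeal :=
      Ideal.absNorm_pow_inertiaDeg P'.asIdeal P.asIdeal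
    have hv := HeightOneSpectrum.valuation_liesOver (A := 𝓞 F) (B := 𝓞 H) H P' P x
    rw [Ideal.ramificationIdx'_eq_ramificationIdx P'.asIdeal P.asIdeal P'.ne_bot] at hv
    have hf : P.asIdeal.inertiaDeg (𝓞 F) ≠ 0 := (Ideal.inertiaDeg_pos P.asIdeal (𝓞 F)).ne'
    rw [HeightOneSpectrum.adicAbv_def, HeightOneSpectrum.adicAbv_def, ← hv]
    rw [toNN_pow _ _ _ (HeightOneSpectrum.absNorm_ne_zero P') hf (by exact_mod_cast hN.symm)]
    push_cast [map_pow]
    rw [← pow_mul]

theorem ldeg_tower (P : Place H) (P' : Place F) (h : Over F H P P') :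
    ldeg K P = ldeg K P' * ldeg F P := by
  match P, P', h with
  | .inl w, .inl w', h =>
    have h : w.comap (algebraMap F H) = w' := h
    subst h
    change w.mult / (w.comap (algebraMap K H)).mult = (w.comap (algebraMap F H)).mult /
      ((w.comap (algebraMap F H)).comap (algebraMap K F)).mult *
        (w.mult / (w.comap (algebraMap F H)).mult)
    rw [comap_tower]
    have h1 := mult_div (K := F) w
    have h2 := mult_div (K := K) (w.comap (algebraMap F H))
    rw [comap_tower] at h2
    have h3 : 0 < (w.comap (algebraMap K H)).mult := InfinitePlace.mult_pos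
    set m1 := (w.comap (algebraMap F H)).mult / (w.comap (algebraMap K H)).mult
    set m2 := w.mult / (w.comap (algebraMap F H)).mult
    rw [h1, h2, mul_assoc, Nat.mul_div_cancel_left _ h3]
  | .inr P, .inr P', h =>
    have hP : P.asIdeal.LiesOver P'.asIdeal := h
    change P.asIdeal.ramificationIdx (𝓞 K) * P.asIdeal.inertiaDeg (𝓞 K) =
      (P'.asIdeal.ramificationIdx (𝓞 K) * P'.asIdeal.inertiaDeg (𝓞 K)) *
      (P.asIdeal.ramificationIdx (𝓞 F) * P.asIdeal.inertiaDeg (𝓞 F))
    rw [Ideal.ramificationIdx_tower (R := 𝓞 K) P'.asIdeal P.asIdeal,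
      Ideal.inertiaDeg_tower (R := 𝓞 K) P'.asIdeal P.asIdeal]
    ring

theorem ldeg_gal [IsGalois K H] (P Q : Place H) (p : Place K) (h : Over K H P p)
    (h' : Over K H Q p) : ldeg K P = ldeg K Q := by
  match P, Q, p, h, h' with
  | .inl w, .inl w', .inl v, h, h' =>
    have h : w.comap (algebraMap K H) = v := h
    have h' : w'.comap (algebraMap K H) = v := h'
    obtain ⟨σ, hσ⟩ := InfinitePlace.exists_smul_eq_of_comap_eq (h.trans h'.symm)
    change w.mult / (w.comap (algebraMap K H)).mult = w'.mult / (w'.comap (algebraMap K H)).mult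
    rw [h, h', ← hσ]
    have : (σ • w).mult = w.mult := by
      unfold InfinitePlace.mult
      by_cases hr : w.IsReal
      · rw [if_pos hr, if_pos (InfinitePlace.isReal_smul_iff.2 hr)]
      · rw [if_neg hr, if_neg (fun h => hr (InfinitePlace.isReal_smul_iff.1 h))]
    rw [this]
  | .inr P, .inr Q, .inr p, h, h' =>
    have h1 : P.asIdeal.LiesOver p.asIdeal := h
    have h2 : Q.asIdeal.LiesOver p.asIdeal := h'
    change P.asIdeal.ramificationIdx (𝓞 K) * P.asIdeal.inertiaDeg (𝓞 K) =
      Q.asIdeal.ramificationIdx (𝓞 K) * Q.asIdeal.inertiaDeg (𝓞 K)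
    rw [Ideal.ramificationIdx_eq_of_isGaloisGroup p.asIdeal P.asIdeal Q.asIdeal Gal(H/K),
      Ideal.inertiaDeg_eq_of_isGaloisGroup p.asIdeal P.asIdeal Q.asIdeal Gal(H/K)]

theorem ldeg_split {p : Place K} (hp : TotallySplit K H p) (P : Place H) (h : Over K H P p) :
    ldeg K P = 1 := by
  match P, p, h, hp with
  | .inl w, .inl v, h, hp =>
    have h : w.comap (algebraMap K H) = v := h
    change w.mult / (w.comap (algebraMap K H)).mult = 1
    rw [hp w h, h]
    exact Nat.div_self InfinitePlace.mult_pos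
  | .inr P, .inr p, h, hp =>
    have h1 : P.asIdeal.LiesOver p.asIdeal := h
    change P.asIdeal.ramificationIdx (𝓞 K) * P.asIdeal.inertiaDeg (𝓞 K) = 1
    rw [(hp P h1).1, (hp P h1).2]

/-- at a totally split place the normalised absolute values agree -/
theorem nabs_split {p : Place K} (hp : TotallySplit K H p) (P : Place H) (P' : Place F)
    (h : Over F H P P') (h' : Over K F P' p) (x : F) : nabs P (algebraMap F H x) = nabs P' x := by
  have h1 := ldeg_split hp P (over_trans h h')
  rw [ldeg_tower (K := K) P P' h] at h1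
  have h2 : ldeg F P = 1 := Nat.eq_one_of_mul_eq_one_left h1
  rw [nabs_mid P P' h, h2, pow_one]

theorem ldeg_pos (P : Place H) : 0 < ldeg K P := by
  match P with
  | .inl w =>
    have h := mult_div (K := K) w
    have h2 : 0 < w.mult := InfinitePlace.mult_pos
    change 0 < w.mult / (w.comap (algebraMap K H)).mult
    rcases Nat.eq_zero_or_pos (w.mult / (w.comap (algebraMap K H)).mult) with h0 | h0
    · rw [h0, mul_zero] at h; omega
    · exact h0
  | .inr P =>
    change 0 < P.asIdeal.ramificationIdx (𝓞 K) * P.asIdeal.inertiaDeg (𝓞 K)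
    exact Nat.mul_pos (Ideal.ramificationIdx_pos P.asIdeal (𝓞 K)) (Ideal.inertiaDeg_pos P.asIdeal (𝓞 K))

/-- an element of `F` in `U^T` is in `U^T` for `H` -/
theorem InU.lift [IsGalois K H] [IsGalois K F] {S : Finset (Place K)} {p : Place K} {x : F}
    (hx : InU S p x) : InU S p (algebraMap F H x) := by
  refine ⟨(map_ne_zero _).2 hx.ne, ?_, ?_, ?_⟩
  · intro q hq Q hQ
    obtain ⟨Q', h1, h2⟩ := exists_mid (F := F) Q q hQ
    rw [nabs_mid Q Q' h1, hx.out q hq Q' h2, one_pow]
  · intro h3 q hq hqp Q hQ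
    obtain ⟨Q', h1, h2⟩ := exists_mid (F := F) Q q hQ
    rw [nabs_mid Q Q' h1, hx.many h3 q hq hqp Q' h2, one_pow]
  · intro h3 q hq hqp Q1 Q2 hQ1 hQ2
    obtain ⟨Q1', h1, h2⟩ := exists_mid (F := F) Q1 q hQ1
    obtain ⟨Q2', h1', h2'⟩ := exists_mid (F := F) Q2 q hQ2
    have e1 := ldeg_gal Q1 Q2 q hQ1 hQ2
    have e2 := ldeg_gal Q1' Q2' q h2 h2'
    rw [ldeg_tower (K := K) Q1 Q1' h1, ldeg_tower (K := K) Q2 Q2' h1', e2] at e1
    have e3 := Nat.eq_of_mul_eq_mul_left (ldeg_pos (K := K) Q2') e1
    rw [nabs_mid Q1 Q1' h1, nabs_mid Q2 Q2' h1', e3, hx.single h3 q hq hqp Q1' Q2' h2 h2']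

end Pool.Agent.N598.ST
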