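import Pool.Agent.N598.ST.Zeta
import Pool.Agent.N598.ST.Grp

set_option autoImplicit false

namespace Pool.Agent.N598.ST

open NumberField IsDedekindDomain

section transfer

variable {K F H : Type} [Field K] [NumberField K] [Field F] [NumberField F] [Field H]
  [NumberField H] [Algebra K F] [Algebra F H] [Algebra K H] [IsScalarTower K F H]

theorem TotallySplit.sub (H : Type) [Field H] [NumberField H] [Algebra K H] [Algebra F H]
    [IsScalarTower K F H] {p : Place K} (h : TotallySplit K H p) : TotallySplit K F p := by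
  have key : ∀ P' : Place F, Over K F P' p → ldeg K P' = 1 := by
    intro P' hP'
    obtain ⟨P, hP⟩ := exists_top (F := F) (H := H) P'
    have h1 := ldeg_split h P (over_trans hP hP')
    rw [ldeg_tower (K := K) P P' hP] at h1
    exact Nat.eq_one_of_mul_eq_one_right h1
  match p, key with
  | .inl v, key =>
    intro w hw
    have h1 := key (.inl w) hw
    have h2 := mult_div (K := K) w
    change w.mult / (w.comap (algebraMap K F)).mult = 1 at h1
    rw [h1, hw, mul_one] at h2
    exact h2
  | .inr p, key =>
    intro P hP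
    have h1 := key (.inr P) hP
    change P.asIdeal.ramificationIdx (𝓞 K) * P.asIdeal.inertiaDeg (𝓞 K) = 1 at h1
    exact ⟨Nat.eq_one_of_mul_eq_one_right h1, Nat.eq_one_of_mul_eq_one_left h1⟩

theorem Unram.sub (H : Type) [Field H] [NumberField H] [Algebra K H] [Algebra F H]
    [IsScalarTower K F H] {q : HeightOneSpectrum (𝓞 K)} (h : Unram K H q) : Unram K F q := by
  intro P' hP'
  obtain ⟨P, hP⟩ := exists_top (F := F) (H := H) (.inr P')
  match P, hP with
  | .inr P, hP =>
    have hP1 : P.asIdeal.LiesOver P'.asIdeal := hP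
    have h1 := h P (Ideal.LiesOver.trans P.asIdeal P'.asIdeal q.asIdeal)
    rw [Ideal.ramificationIdx_tower (R := 𝓞 K) P'.asIdeal P.asIdeal] at h1
    exact Nat.eq_one_of_mul_eq_one_right h1

theorem Data.sub (H : Type) [Field H] [NumberField H] [Algebra K H] [Algebra F H]
    [IsScalarTower K F H] {S : Finset (Place K)} {p : Place K} (h : Data K H S p) :
    Data K F S p :=
  ⟨h.two_le, h.arch, fun q hq => (h.ram q hq).sub H, h.mem, h.split.sub H⟩

end transfer

section main

variable {K H : Type} [Field K] [NumberField K] [Field H] [NumberField H] [Algebra K H]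

theorem abOm_one [IsAbelianGalois K H] : AbOm K (W H) (1 : H) := by
  have h0 : AbRoot K 1 (1 : H) := by
    refine ⟨H, inferInstance, inferInstance, inferInstance, inferInstance, inferInstance, 1,
      by simp, ?_⟩
    rw [eq_top_iff]
    intro x _
    exact (IntermediateField.adjoin H {(1 : H)}).algebraMap_mem x
  have h2 := h0.lift (H := H) (k := W H)
  simpa using h2

/-- the good functions form a group -/
def goodSub [IsAbelianGalois K H] (S : Finset (Place K)) (p : Place K) (P : Place H) :
    AddSubgroup (Gal(H/K) → ℂ) where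
  carrier := {φ | Good S p P φ}
  add_mem' := fun ha hb => ha.add hb
  zero_mem' := ⟨1, InU.one S p, fun g => by simp [nabs_one], abOm_one⟩
  neg_mem' := fun ha => ha.neg

theorem starkMul_iff [IsAbelianGalois K H] (c : ℤ) (S : Finset (Place K)) (p : Place K) :
    StarkMul K H c S p ↔ ∀ P : Place H, Over K H P p → ∀ a : Ideal (𝓞 K) → Gal(H/K), IsArtin S a →
      ∀ Z : Gal(H/K) → ℂ → ℂ, (∀ g, IsZeta S a g (Z g)) →
        c • (fun g => deriv (Z g) 0) ∈ goodSub S p P := by
  constructor
  · intro h P hP a ha Z hZ
    obtain ⟨ε, h1, h2, h3⟩ := h P hP a ha Z hZ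
    refine ⟨ε, h1, fun g => ?_, ?_⟩
    · rw [h2 g]
      simp only [Pi.smul_apply, zsmul_eq_mul]
      ring
    · have h4 := h3.lift (H := H) (k := 1)
      simpa using h4
  · intro h P hP a ha Z hZ
    obtain ⟨ε, h1, h2, h3⟩ := h P hP a ha Z hZ
    refine ⟨ε, h1, fun g => ?_, h3.abRoot⟩
    rw [h2 g]
    simp only [Pi.smul_apply, zsmul_eq_mul]
    ring

theorem stark_iff (S : Finset (Place K)) (p : Place K) : Stark K H S p ↔ StarkMul K H 1 S p := by
  unfold Stark StarkMul
  simp only [Int.cast_one, one_mul]

/-- the multiples of the conjecture which hold form an ideal of the integers -/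
def idealOf (K H : Type) [Field K] [NumberField K] [Field H] [NumberField H] [Algebra K H]
    [IsAbelianGalois K H] (S : Finset (Place K)) (p : Place K) : AddSubgroup ℤ where
  carrier := {c | StarkMul K H c S p}
  add_mem' := by
    intro a b ha hb
    rw [Set.mem_ofPred_eq, starkMul_iff] at ha hb ⊢
    intro P hP a ha' Z hZ
    rw [add_smul]
    exact AddSubgroup.add_mem _ (ha P hP a ha' Z hZ) (hb P hP a ha' Z hZ)
  zero_mem' := by
    rw [Set.mem_ofPred_eq, starkMul_iff]
    intro P hP a ha' Z hZ
    rw [zero_smul]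
    exact AddSubgroup.zero_mem _
  neg_mem' := by
    intro a ha
    rw [Set.mem_ofPred_eq, starkMul_iff] at ha ⊢
    intro P hP a ha' Z hZ
    rw [neg_smul]
    exact AddSubgroup.neg_mem _ (ha P hP a ha' Z hZ)

/-- the conjecture is the conjunction of its `l`-parts -/
theorem stark_iff_parts [IsAbelianGalois K H] (S : Finset (Place K)) (p : Place K) :
    Stark K H S p ↔ ∀ l : ℕ, l.Prime → StarkPart K H l S p := by
  constructor
  · intro h l hl
    refine ⟨1, fun h1 => ?_, (stark_iff S p).1 h⟩
    have : l ∣ 1 := by exact_mod_cast h1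
    exact hl.one_lt.ne' (Nat.dvd_one.1 this)
  · intro h
    rw [stark_iff]
    obtain ⟨n, hn⟩ := Int.subgroup_cyclic (idealOf K H S p)
    have hmem : ∀ c : ℤ, StarkMul K H c S p ↔ n ∣ c := by
      intro c
      rw [← Int.mem_zmultiples_iff, AddSubgroup.zmultiples_eq_closure, ← hn]
      rfl
    by_contra h1
    rw [hmem] at h1
    have hne : n.natAbs ≠ 1 := fun h2 => h1 (Int.isUnit_iff_natAbs_eq.2 h2).dvd
    obtain ⟨l, hl, hln⟩ := Nat.exists_prime_and_dvd hne
    obtain ⟨c, hc, hc2⟩ := h l hl
    exact hc ((Int.natCast_dvd.2 hln).trans ((hmem c).1 hc2))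

open Classical in
/-- `l * c` times the conjecture from `c` times the conjecture for the proper subextensions -/
theorem good_prime [IsAbelianGalois K H] {S : Finset (Place K)} {p : Place K}
    (hp : TotallySplit K H p) {c : ℤ}
    (hF : ∀ N : Subgroup Gal(H/K), N ≠ ⊥ → StarkMul K (IntermediateField.fixedField N) c S p)
    (l : ℕ) (hl : l.Prime) (V : Subgroup Gal(H/K)) (hV : Nat.card V = l ^ 2)
    (hV2 : ∀ t ∈ V, t ^ l = 1) : StarkMul K H (c * l) S p := by
  rw [starkMul_iff]
  intro P hP a ha Z hZ
  have hN : ∀ N : Subgroup Gal(H/K), N ≠ ⊥ →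
      (fun g => c * ∑ h : Gal(H/K), if g⁻¹ * h ∈ N then deriv (Z h) 0 else 0) ∈
        goodSub S p P := by
    intro N hN
    have h2 := good_of_stark (F := IntermediateField.fixedField N) hp (hF N hN) P hP ha hZ
    have e : (fun g => c * ∑ h : Gal(H/K), if g⁻¹ * h ∈ N then deriv (Z h) 0 else 0) =
        (fun g => c * ∑ h : Gal(H/K),
          if AlgEquiv.restrictNormalHom (IntermediateField.fixedField N) h =
            AlgEquiv.restrictNormalHom (IntermediateField.fixedField N) g
          then deriv (Z h) 0 else 0) := by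
      funext g
      congr 1
      refine Finset.sum_congr rfl fun h _ => ?_
      have : g⁻¹ * h ∈ N ↔ AlgEquiv.restrictNormalHom (IntermediateField.fixedField N) h =
            AlgEquiv.restrictNormalHom (IntermediateField.fixedField N) g := by
        conv_lhs => rw [← IntermediateField.fixingSubgroup_fixedField N]
        rw [← IntermediateField.restrictNormalHom_ker, MonoidHom.mem_ker, map_mul, map_inv,
          inv_mul_eq_one, eq_comm]
      simp only [this]
    rw [e]; exact h2
  have hV0 : V ≠ ⊥ := by
    intro h0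
    rw [h0, Subgroup.card_bot] at hV
    have := Nat.one_lt_pow (n := 2) (by norm_num) hl.one_lt
    omega
  have hsum : (∑ N : Subgroup Gal(H/K), if N ≤ V ∧ Nat.card N = l then
      (fun g => c * ∑ h : Gal(H/K), if g⁻¹ * h ∈ N then deriv (Z h) 0 else 0) else 0) ∈
      goodSub S p P := by
    apply AddSubgroup.sum_mem
    intro N _
    split_ifs with hc
    · apply hN
      intro h0
      rw [h0, Subgroup.card_bot] at hc
      exact hl.one_lt.ne hc.2
    · exact AddSubgroup.zero_mem _
  have h2 := AddSubgroup.sub_mem _ hsum (hN V hV0)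
  convert h2 using 1
  funext g
  rw [Pi.sub_apply, Finset.sum_apply]
  have e1 : ∀ N : Subgroup Gal(H/K), (if N ≤ V ∧ Nat.card N = l then
      (fun g => c * ∑ h : Gal(H/K), if g⁻¹ * h ∈ N then deriv (Z h) 0 else 0) else 0) g =
      ∑ h : Gal(H/K), (if N ≤ V ∧ Nat.card N = l then (if g⁻¹ * h ∈ N then (1 : ℂ) else 0) else 0) *
        (c * deriv (Z h) 0) := by
    intro N
    split_ifs with hc
    · change (c : ℂ) * _ = _
      rw [Finset.mul_sum]
      refine Finset.sum_congr rfl fun h _ => ?_
      split_ifs <;> simp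
    · simp
  rw [Finset.sum_congr rfl fun N _ => e1 N, Finset.sum_comm]
  have e2 : ∀ h : Gal(H/K), ∑ N : Subgroup Gal(H/K),
      (if N ≤ V ∧ Nat.card N = l then (if g⁻¹ * h ∈ N then (1 : ℂ) else 0) else 0) *
        (c * deriv (Z h) 0) = ((if g⁻¹ * h ∈ V then 1 else 0) +
          (if g⁻¹ * h = 1 then (l : ℂ) else 0)) * (c * deriv (Z h) 0) := by
    intro h
    rw [← Finset.sum_mul]
    congr 1
    have h3 := relation l hl V hV hV2 (g⁻¹ * h)
    have h4 := congrArg (fun z : ℤ => (z : ℂ)) h3
    push_cast at h4
    exact h4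
  rw [Finset.sum_congr rfl fun h _ => e2 h, Finset.mul_sum, ← Finset.sum_sub_distrib]
  rw [Finset.sum_eq_single g]
  · simp
    ring
  · intro h _ hne
    have : g⁻¹ * h ≠ 1 := fun h0 => hne (inv_mul_eq_one.1 h0).symm
    rw [if_neg this]
    split_ifs <;> simp
  · intro h; exact absurd (Finset.mem_univ _) h

theorem part_of_sub {K : Type} [Field K] [NumberField K] {S : Finset (Place K)} {p : Place K}
    (l : ℕ) (hl : l.Prime) (n : ℕ) :
    ∀ (H : Type) [Field H] [NumberField H] [Algebra K H] [IsAbelianGalois K H],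
      Module.finrank K H = n → TotallySplit K H p →
      (∀ (L : Type) [Field L] [NumberField L] [Algebra K L], Nonempty (L →ₐ[K] H) →
        CyclicOutside l Gal(L/K) → StarkPart K L l S p) → StarkPart K H l S p := by
  induction n using Nat.strong_induction_on with
  | _ n ih =>
    intro H _ _ _ _ hn hp hyp
    by_cases hone : CyclicOutside l Gal(H/K)
    · exact hyp H ⟨AlgHom.id K H⟩ hone
    unfold CyclicOutside at hone
    push Not at hone
    obtain ⟨m, hm, hlm, hPm⟩ := hone
    have hc : ∀ a b : Gal(H/K), a * b = b * a :=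
      fun a b => (IsMulCommutative.is_comm (M := Gal(H/K))).comm a b
    obtain ⟨V, hV, hV2⟩ := exists_V hc m hm (by push Not; exact hPm)
    have hF : ∀ N : Subgroup Gal(H/K), ∃ c : ℤ, ¬ (l : ℤ) ∣ c ∧ (N ≠ ⊥ →
        StarkMul K (IntermediateField.fixedField N) c S p) := by
      intro N
      by_cases hN : N = ⊥
      · refine ⟨1, fun h1 => ?_, fun h => absurd hN h⟩
        have : l ∣ 1 := by exact_mod_cast h1
        exact hl.one_lt.ne' (Nat.dvd_one.1 this)
      have hlt : Module.finrank K (IntermediateField.fixedField N) < n := by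
        have h1 := Module.finrank_mul_finrank K (IntermediateField.fixedField N) H
        rw [IntermediateField.finrank_fixedField_eq_card] at h1
        have h2 : 1 < Nat.card N := by
          rw [Subgroup.one_lt_card_iff_ne_bot]; exact hN
        have h3 : 0 < Module.finrank K (IntermediateField.fixedField N) := Module.finrank_pos
        rw [hn] at h1
        nlinarith
      obtain ⟨c, hc1, hc2⟩ := ih _ hlt (IntermediateField.fixedField N) rfl (hp.sub H) (by
        intro L _ _ _ hL hone
        obtain ⟨f⟩ := hL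
        exact hyp L ⟨(IntermediateField.fixedField N).val.comp f⟩ hone)
      exact ⟨c, hc1, fun _ => hc2⟩
    choose c hc1 hc2 using hF
    classical
    have hpl : Prime (l : ℤ) := Nat.prime_iff_prime_int.1 hl
    refine ⟨(∏ N : Subgroup Gal(H/K), c N) * m, ?_, ?_⟩
    · intro h
      rcases hpl.dvd_or_dvd h with h | h
      · obtain ⟨N, -, hN⟩ := (Prime.dvd_finsetProd_iff hpl _).1 h
        exact hc1 N hN
      · have : l ∣ m := by exact_mod_cast h
        exact hlm ((Nat.prime_dvd_prime_iff_eq hl hm).1 this).symm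
    · refine good_prime hp (fun N hN => ?_) m hm V hV hV2
      have h1 : c N ∣ ∏ N : Subgroup Gal(H/K), c N := Finset.dvd_prod_of_mem c (Finset.mem_univ N)
      obtain ⟨k, hk⟩ := h1
      rw [hk, mul_comm]
      exact AddSubgroup.zsmul_mem (idealOf K (IntermediateField.fixedField N) S p) (hc2 N hN) k

end main

end Pool.Agent.N598.ST
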