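import Pool.Agent.N598.ST.RDef

/-!
# Popescu's integrality conjecture for higher order Stark evaluators: definitions (helper598)

`H / K` is a finite abelian extension of number fields with group `G`, `E = U_{S,∅}` the group of
the `S`-units of `H`, `E^* = Hom_{ℤ[G]}(E, ℤ[G])` (`IsFunc S ∅`), and elements of `ℚ ⊗ ⋀^r E` are
finite sums `∑ a (u_1 ∧ ... ∧ u_r)` with `a ∈ ℚ[G]`, `u_j ∈ E` (`Wedge`, `Wedge.Valid S ∅`).
-/

set_option autoImplicit false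

namespace Pool.Agent.N598.ST

open NumberField IsDedekindDomain
open scoped IsMulCommutative

variable {K H : Type} [Field K] [NumberField K] [Field H] [NumberField H] [Algebra K H]
  [IsAbelianGalois K H]

/-- `x` (a sum of wedges of length `r + 1`) is in Popescu's lattice `Λ` and in the part `e'` of
`ℚ ⊗ ⋀^(r+1) E`. Here `θ = ∑_(χ ∈ Ĝ') L*(0, χ) e_(χ̄)`.
* `e' x = x`: the values `(φ_1 ∧ ... ∧ φ_(r+1))(x)`, `φ_i ∈ E^*`, are annihilated by all `y ∈ ℂ[G]`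
  with `y θ = 0` (the ideal generated by `θ` is the ideal generated by `e'`).
* `x ∈ Λ`: for all `φ_1, ..., φ_r ∈ E^*` the element `(φ_1 ∧ ... ∧ φ_r)(x)` of `ℚ ⊗ E` is the image
  of some `ε ∈ E^{ab}` (`ε ∈ E` with `H(ε^(1/W)) / K` abelian). As the elements `ψ` of `E^*`
  separate the points of `ℚ ⊗ E` and `ψ ((φ_1 ∧ ... ∧ φ_r)(x)) = (φ_1 ∧ ... ∧ φ_r ∧ ψ)(x)`, this is
  written as `(φ_1 ∧ ... ∧ φ_r ∧ ψ)(x) = ψ(ε)` for all `ψ ∈ E^*`. -/
def InPop {r : ℕ} (S : Finset (Place K)) (θ : GR K H) (x : Wedge K H (r + 1)) : Prop :=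
  x.Valid S ∅ ∧
  (∀ φ : Fin (r + 1) → H → GR K H, (∀ i, IsFunc S ∅ (φ i)) →
    ∀ y : GR K H, y * θ = 0 → y * ev φ x = 0) ∧
  ∀ φ : Fin r → H → GR K H, (∀ i, IsFunc S ∅ (φ i)) →
    ∃ ε : H, InUST S ∅ ε ∧ AbRoot K (W H) ε ∧
      ∀ ψ : H → GR K H, IsFunc S ∅ ψ → ev (Fin.snoc φ ψ) x = ψ ε

variable (K H)

/-- `c` times Popescu's conjecture for `H / K`, `S` and the places `v_1, ..., v_(r+1)` (`c = 1` is
Popescu's conjecture): for all places `w_i` over `v_i` there is an element `x = c W η'` of `Λ`;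
`η'` is the element of the part `e'` with `R(η') = θ`, where
`R(u_1 ∧ ... ∧ u_(r+1)) = det (- ∑_σ log |σ u_i|_(w_j) σ⁻¹)` and
`θ = lim s ^ (-r-1) ∑_g ζ_S(g, s) g⁻¹ = ∑_χ L*(0, χ) e_(χ̄)`. -/
def PopMul (c : ℤ) (r : ℕ) (S : Finset (Place K)) (v : Fin (r + 1) → Place K) : Prop :=
  ∀ w : Fin (r + 1) → Place H, (∀ i, Over K H (w i) (v i)) →
    ∀ a : Ideal (𝓞 K) → Gal(H/K), IsArtin S a →
    ∀ Z : Gal(H/K) → ℂ → ℂ, (∀ g, IsZeta S a g (Z g)) →
    ∀ θ : GR K H, IsTheta (r + 1) ∅ a Z θ →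
      ∃ x : Wedge K H (r + 1), InPop S θ x ∧
        ((-1) ^ (r + 1) : ℂ) • ev (fun i => reg (w i)) x = (W H : ℂ) • ((c : ℂ) • θ)

/-- **Popescu's conjecture** for `H / K`, `S` and the places `v_1, ..., v_(r+1)`: for all places
`w_i` over `v_i` the element `W η'` is in `Λ`. -/
def Popescu (r : ℕ) (S : Finset (Place K)) (v : Fin (r + 1) → Place K) : Prop :=
  ∀ w : Fin (r + 1) → Place H, (∀ i, Over K H (w i) (v i)) →
    ∀ a : Ideal (𝓞 K) → Gal(H/K), IsArtin S a →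
    ∀ Z : Gal(H/K) → ℂ → ℂ, (∀ g, IsZeta S a g (Z g)) →
    ∀ θ : GR K H, IsTheta (r + 1) ∅ a Z θ →
      ∃ x : Wedge K H (r + 1), InPop S θ x ∧
        ((-1) ^ (r + 1) : ℂ) • ev (fun i => reg (w i)) x = (W H : ℂ) • θ

/-- The `l`-part of Popescu's conjecture: some multiple by an integer prime to `l` holds. -/
def PopPart (l : ℕ) (r : ℕ) (S : Finset (Place K)) (v : Fin (r + 1) → Place K) : Prop :=
  ∃ c : ℤ, ¬ (l : ℤ) ∣ c ∧ PopMul K H c r S v

/-- The hypotheses (H1), (H2), (H3) of Popescu's conjecture. -/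
structure PData (K H : Type) [Field K] [NumberField K] [Field H] [NumberField H] [Algebra K H]
    (r : ℕ) (S : Finset (Place K)) (v : Fin r → Place K) : Prop where
  arch : ∀ v : InfinitePlace K, Sum.inl v ∈ S
  ram : ∀ q : HeightOneSpectrum (𝓞 K), Sum.inr q ∉ S → Unram K H q
  inj : Function.Injective v
  mem : ∀ i, v i ∈ S
  split : ∀ i, TotallySplit K H (v i)
  card : r + 1 ≤ S.card

end Pool.Agent.N598.ST
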