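import Pool.Agent.N598.ST.RMain2
import Pool.Agent.N598.ST.PDef

set_option autoImplicit false

namespace Pool.Agent.N598.ST

open NumberField IsDedekindDomain
open scoped IsMulCommutative

section units

variable {K H : Type} [Field K] [NumberField K] [Field H] [NumberField H] [Algebra K H]

theorem InUST.one (S : Finset (Place K)) : InUST S ∅ (1 : H) :=
  ⟨one_ne_zero, fun _ _ _ _ => nabs_one _, fun _ h => absurd h (Finset.notMem_empty _)⟩

theorem InUST.mul {S : Finset (Place K)} {x y : H} (hx : InUST S ∅ x) (hy : InUST S ∅ y) :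
    InUST S ∅ (x * y) :=
  ⟨mul_ne_zero hx.ne hy.ne, fun q hq Q hQ => by
    rw [nabs_mul, hx.out q hq Q hQ, hy.out q hq Q hQ, one_mul],
    fun _ h => absurd h (Finset.notMem_empty _)⟩

theorem InUST.inv {S : Finset (Place K)} {x : H} (hx : InUST S ∅ x) :
    InUST S ∅ x⁻¹ :=
  ⟨inv_ne_zero hx.ne, fun q hq Q hQ => by rw [nabs_inv, hx.out q hq Q hQ, inv_one],
    fun _ h => absurd h (Finset.notMem_empty _)⟩

theorem InUST.pow {S : Finset (Place K)} {x : H} (hx : InUST S ∅ x) (n : ℕ) :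
    InUST S ∅ (x ^ n) := by
  induction n with
  | zero => rw [pow_zero]; exact InUST.one S
  | succ n ih => rw [pow_succ]; exact ih.mul hx

theorem IsFunc.one {S : Finset (Place K)} {ψ : H → GR K H} (hψ : IsFunc S ∅ ψ) : ψ 1 = 0 := by
  have h := hψ.mul 1 1 (InUST.one S) (InUST.one S)
  rw [mul_one] at h
  exact left_eq_add.1 h

theorem IsFunc.inv {S : Finset (Place K)} {ψ : H → GR K H} (hψ : IsFunc S ∅ ψ) {x : H}
    (hx : InUST S ∅ x) : ψ x⁻¹ = - ψ x := by
  have h := hψ.mul x x⁻¹ hx hx.inv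
  rw [mul_inv_cancel₀ hx.ne, hψ.one] at h
  exact (neg_eq_of_add_eq_zero_right h.symm).symm

theorem IsFunc.pow {S : Finset (Place K)} {ψ : H → GR K H} (hψ : IsFunc S ∅ ψ) {x : H}
    (hx : InUST S ∅ x) (n : ℕ) : ψ (x ^ n) = (n : ℂ) • ψ x := by
  induction n with
  | zero => rw [pow_zero, hψ.one, Nat.cast_zero, zero_smul]
  | succ n ih => rw [pow_succ, hψ.mul _ _ (hx.pow n) hx, ih, Nat.cast_succ, add_smul, one_smul]

end units

section good

variable {K H : Type} [Field K] [NumberField K] [Field H] [NumberField H] [Algebra K H]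
  [IsAbelianGalois K H]

theorem AbRoot.abOm {w : ℕ} {x : H} (hx : AbRoot K w x) : AbOm K w x := by
  have h4 := hx.lift (H := H) (k := 1)
  simpa using h4

/-- scaling -/
noncomputable def scW {r : ℕ} (k : ℕ) (x : Wedge K H r) : Wedge K H r :=
  x.map fun t => ((k : ℂ) • t.1, t.2)

theorem ev_scW {r : ℕ} (k : ℕ) (ψ : Fin r → H → GR K H) (x : Wedge K H r) :
    ev ψ (scW k x) = (k : ℂ) • ev ψ x := by
  induction x with
  | nil => simp [ev, scW]
  | cons t x ih =>
    have e1 : ev ψ (scW k (t :: x)) = ((k : ℂ) • t.1) *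
        Matrix.det (Matrix.of fun i j => ψ i (t.2 j)) + ev ψ (scW k x) := by simp [ev, scW]
    have e2 : ev ψ (t :: x) = t.1 * Matrix.det (Matrix.of fun i j => ψ i (t.2 j)) + ev ψ x := by
      simp [ev]
    rw [e1, e2, ih, smul_add, smul_mul_assoc]

/-- `φ` with `W φ` a value of `R` on `Λ` -/
noncomputable def goodP {r : ℕ} (S : Finset (Place K)) (w : Fin (r + 1) → Place H) (θ : GR K H) :
    AddSubgroup (GR K H) where
  carrier := {φ | ∃ x : Wedge K H (r + 1), InPop S θ x ∧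
    ((-1) ^ (r + 1) : ℂ) • ev (fun i => reg (w i)) x = (W H : ℂ) • φ}
  add_mem' := by
    rintro p q ⟨x, ⟨hx1, hx2, hx3⟩, hx4⟩ ⟨y, ⟨hy1, hy2, hy3⟩, hy4⟩
    refine ⟨x ++ y, ⟨fun t ht => ?_, fun φ hφ z hz => ?_, fun φ hφ => ?_⟩, ?_⟩
    · rcases List.mem_append.1 ht with h | h
      · exact hx1 t h
      · exact hy1 t h
    · rw [ev_append, mul_add, hx2 φ hφ z hz, hy2 φ hφ z hz, add_zero]
    · obtain ⟨ε, h1, h2, h3⟩ := hx3 φ hφ
      obtain ⟨δ, h4, h5, h6⟩ := hy3 φ hφ
      refine ⟨ε * δ, h1.mul h4, (h2.abOm.mul h5.abOm).abRoot, fun ψ hψ => ?_⟩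
      rw [ev_append, h3 ψ hψ, h6 ψ hψ, hψ.mul _ _ h1 h4]
    · rw [ev_append, smul_add, hx4, hy4, smul_add]
  zero_mem' := by
    refine ⟨[], ⟨fun t ht => by simp at ht, fun φ hφ z hz => by simp [ev], fun φ hφ =>
      ⟨1, InUST.one S, abOm_one.abRoot, fun ψ hψ => by rw [hψ.one]; simp [ev]⟩⟩, by simp [ev]⟩
  neg_mem' := by
    rintro p ⟨x, ⟨hx1, hx2, hx3⟩, hx4⟩
    refine ⟨negW x, ⟨fun t ht => ?_, fun φ hφ z hz => ?_, fun φ hφ => ?_⟩, ?_⟩
    · obtain ⟨t', ht', rfl⟩ := List.mem_map.1 ht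
      refine ⟨fun g => ?_, (hx1 t' ht').2⟩
      obtain ⟨q, hq⟩ := (hx1 t' ht').1 g
      refine ⟨-q, ?_⟩
      change (-t'.1).coeff g = _
      rw [MonoidAlgebra.coeff_neg, Finsupp.neg_apply, hq]; push_cast; rfl
    · rw [ev_neg, mul_neg, hx2 φ hφ z hz, neg_zero]
    · obtain ⟨ε, h1, h2, h3⟩ := hx3 φ hφ
      exact ⟨ε⁻¹, h1.inv, h2.abOm.inv.abRoot, fun ψ hψ => by
        rw [ev_neg, h3 ψ hψ, hψ.inv h1]⟩
    · rw [ev_neg, smul_neg, hx4, smul_neg]

end good

section lift

variable {K F H : Type} [Field K] [NumberField K] [Field F] [NumberField F] [Field H]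
  [NumberField H] [Algebra K F] [Algebra F H] [Algebra K H] [IsScalarTower K F H]
  [IsAbelianGalois K H] [IsAbelianGalois K F]

theorem InPop.lift {r : ℕ} {S : Finset (Place K)} {θ : GR K H} {x : Wedge K F (r + 1)}
    (hx : InPop S (pr (rr K F H) θ) x) {k : ℕ} (hk : W H = W F * k) :
    InPop S θ (scW k (liftW (H := H) x)) := by
  obtain ⟨hx1, hx2, hx3⟩ := hx
  refine ⟨fun t ht => ?_, fun φ hφ y hy => ?_, fun φ hφ => ?_⟩
  · obtain ⟨t', ht', rfl⟩ := List.mem_map.1 ht
    have h := liftW_valid (H := H) hx1 t' ht'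
    refine ⟨fun g => ?_, h.2⟩
    obtain ⟨q, hq⟩ := h.1 g
    refine ⟨k * q, ?_⟩
    change (k : ℂ) * t'.1.coeff g = _
    rw [hq]; push_cast; rfl
  · choose φ' h1 h2 using fun i => (hφ i).restrict (F := F)
    rw [ev_scW, ev_liftW φ φ' h2 x hx1, mul_smul_comm, mul_iota,
      hx2 φ' h1 (pr (rr K F H) y) (by rw [← map_mul, hy, map_zero]), iota_zero, smul_zero]
  · choose φ' h1 h2 using fun i => (hφ i).restrict (F := F)
    obtain ⟨ε, h3, h4, h5⟩ := hx3 φ' h1
    refine ⟨algebraMap F H ε ^ k, h3.lift.pow k, ?_, fun ψ hψ => ?_⟩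
    · rw [hk]; exact h4.lift.abRoot
    · obtain ⟨ψ', h6, h7⟩ := hψ.restrict (F := F)
      have h8 : ∀ (i : Fin (r + 1)) (z : F), InUST S ∅ z →
          (Fin.snoc φ ψ : Fin (r + 1) → H → GR K H) i (algebraMap F H z) =
            iota (rr K F H) ((Fin.snoc φ' ψ' : Fin (r + 1) → F → GR K F) i z) := by
        intro i z hz
        refine Fin.lastCases ?_ (fun j => ?_) i
        · rw [Fin.snoc_last, Fin.snoc_last]; exact h7 z hz
        · rw [Fin.snoc_castSucc, Fin.snoc_castSucc]; exact h2 j z hz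
      rw [ev_scW, ev_liftW _ _ h8 x hx1, h5 ψ' h6, hψ.pow h3.lift, ← h7 ε h3]

end lift

section main

variable {K H : Type} [Field K] [NumberField K] [Field H] [NumberField H] [Algebra K H]
  [IsAbelianGalois K H]

theorem pop_prime {r : ℕ} {S : Finset (Place K)}
    {v : Fin (r + 1) → Place K} (hv : ∀ i, TotallySplit K H (v i)) {c : ℤ}
    (hF : ∀ N : Subgroup Gal(H/K), N ≠ ⊥ →
      PopMul K (IntermediateField.fixedField N) c r S v)
    (m : ℕ) (hm : m.Prime) (V : Subgroup Gal(H/K)) (hV : Nat.card V = m ^ 2)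
    (hV2 : ∀ t ∈ V, t ^ m = 1) : PopMul K H (c * m) r S v := by
  classical
  intro w hw a ha Z hZ θ hθ
  have hN : ∀ N : Subgroup Gal(H/K), N ≠ ⊥ → c • nrm N θ ∈ goodP S w θ := by
    intro N hN
    choose w' hw1 hw2 using fun i => exists_mid (F := IntermediateField.fixedField N) (w i) (v i) (hw i)
    obtain ⟨u, hu1, hu2⟩ := hF N hN w' hw2 _ (ha.restrict (F := IntermediateField.fixedField N)) _
      (fun u => IsZeta.restrict hZ u) _ (hθ.restrict (F := IntermediateField.fixedField N))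
    obtain ⟨k, hk⟩ := W_dvd (F := IntermediateField.fixedField N) (H := H)
    refine ⟨scW k (liftW (H := H) u), hu1.lift hk, ?_⟩
    rw [ev_scW, ev_liftW (S := S) (T := ∅) (fun i => reg (w i)) (fun i => reg (w' i))
      (fun i x _ => reg_lift (hv i) (w i) (w' i) (hw1 i) (hw2 i) x) u hu1.1, smul_comm,
      ← iota_smul, hu2, iota_smul, iota_smul, nrm_eq, hk, Int.cast_smul_eq_zsmul, smul_smul]
    congr 1
    push_cast
    ring
  have hV0 : V ≠ ⊥ := by
    intro h0
    rw [h0, Subgroup.card_bot] at hV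
    have := Nat.one_lt_pow (n := 2) (by norm_num) hm.one_lt
    omega
  have hsum : (∑ N : Subgroup Gal(H/K), if N ≤ V ∧ Nat.card N = m then c • nrm N θ else 0) ∈
      goodP S w θ := by
    apply AddSubgroup.sum_mem
    intro N _
    split_ifs with hc
    · apply hN
      intro h0
      rw [h0, Subgroup.card_bot] at hc
      exact hm.one_lt.ne hc.2
    · exact AddSubgroup.zero_mem _
  have h2 := AddSubgroup.sub_mem _ hsum (hN V hV0)
  have e : (∑ N : Subgroup Gal(H/K), if N ≤ V ∧ Nat.card N = m then c • nrm N θ else 0) -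
      c • nrm V θ = ((c * m : ℤ) : ℂ) • θ := by
    have e0 : (∑ N : Subgroup Gal(H/K), if N ≤ V ∧ Nat.card N = m then c • nrm N θ else 0) =
        c • ∑ N : Subgroup Gal(H/K), if N ≤ V ∧ Nat.card N = m then nrm N θ else 0 := by
      rw [Finset.smul_sum]
      refine Finset.sum_congr rfl fun N _ => ?_
      split_ifs <;> simp
    rw [e0, ← smul_sub, nrm_relation m hm V hV hV2]
    push_cast
    rw [mul_smul]
    exact (Int.cast_smul_eq_zsmul ℂ c _).symm
  rw [e] at h2
  exact h2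

theorem popMul_ideal (r : ℕ) (S : Finset (Place K))
    (v : Fin (r + 1) → Place K) : ∃ I : AddSubgroup ℤ, ∀ c, c ∈ I ↔ PopMul K H c r S v := by
  refine ⟨⟨⟨⟨{c | PopMul K H c r S v}, ?_⟩, ?_⟩, ?_⟩, fun c => Iff.rfl⟩
  · intro c d hc hd w hw a ha Z hZ θ hθ
    have h := AddSubgroup.add_mem (goodP S w θ) (hc w hw a ha Z hZ θ hθ) (hd w hw a ha Z hZ θ hθ)
    rw [← add_smul] at h
    rw [Int.cast_add]
    exact h
  · intro w hw a ha Z hZ θ hθ
    have h := AddSubgroup.zero_mem (goodP S w θ)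
    rw [Int.cast_zero, zero_smul]
    exact h
  · intro c hc w hw a ha Z hZ θ hθ
    have h := AddSubgroup.neg_mem (goodP S w θ) (hc w hw a ha Z hZ θ hθ)
    rw [← neg_smul] at h
    rw [Int.cast_neg]
    exact h

theorem pop_iff (r : ℕ) (S : Finset (Place K)) (v : Fin (r + 1) → Place K) :
    Popescu K H r S v ↔ PopMul K H 1 r S v := by
  unfold Popescu PopMul
  simp only [Int.cast_one, one_smul]

theorem pop_iff_parts (r : ℕ) (S : Finset (Place K)) (v : Fin (r + 1) → Place K) :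
    Popescu K H r S v ↔ ∀ l : ℕ, l.Prime → PopPart K H l r S v := by
  obtain ⟨I, hI⟩ := popMul_ideal (K := K) (H := H) r S v
  constructor
  · intro h l hl
    refine ⟨1, fun h1 => ?_, (pop_iff r S v).1 h⟩
    have : l ∣ 1 := by exact_mod_cast h1
    exact hl.one_lt.ne' (Nat.dvd_one.1 this)
  · intro h
    rw [pop_iff, ← hI]
    apply one_of_parts
    intro l hl
    obtain ⟨c, hc, hc2⟩ := h l hl
    exact ⟨c, hc, (hI c).2 hc2⟩

end main

theorem pop_part_of_sub {K : Type} [Field K] [NumberField K] {r : ℕ} {S : Finset (Place K)}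
    {v : Fin (r + 1) → Place K} (l : ℕ) (hl : l.Prime)
    (H : Type) [Field H] [NumberField H] [Algebra K H] [IsAbelianGalois K H]
    (hv : ∀ i, TotallySplit K H (v i))
    (h : ∀ (L : Type) [Field L] [NumberField L] [Algebra K L] [IsAbelianGalois K L],
        Nonempty (L →ₐ[K] H) → CyclicOutside l Gal(L/K) → PopPart K L l r S v) :
    PopPart K H l r S v := by
  refine part_principle (K := K)
    (fun H _ _ _ _ c => PopMul K H c r S v)
    (fun H _ _ _ _ => ∀ i, TotallySplit K H (v i)) ?_ ?_ ?_ l hl _ H rfl hv h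
  · intro H _ _ _ _ hH N i
    exact (hH i).sub H
  · intro H _ _ _ _ c k hc
    obtain ⟨I, hI⟩ := popMul_ideal (K := K) (H := H) r S v
    rw [← hI] at hc ⊢
    exact AddSubgroup.zsmul_mem I hc k
  · intro H _ _ _ _ hH c hN m hm V hV hV2
    exact pop_prime hH hN m hm V hV hV2

end Pool.Agent.N598.ST
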