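import Pool.Agent.N598.ST.Def

/-!
# Rubin's integral refinement of the higher rank Stark conjecture: definitions (helper598)

`H / K` is a finite abelian extension of number fields with group `G`. Elements of
`ℚ ⊗ ⋀^r U_{S,T}` (over `ℤ[G]`) are written as finite sums `∑ a (u_1 ∧ ... ∧ u_r)` with
`a ∈ ℚ[G]`, `u_j ∈ U_{S,T}` (type `Wedge`); all group rings are regarded inside `ℂ[G]`.
-/

set_option autoImplicit false

namespace Pool.Agent.N598.ST

open NumberField IsDedekindDomain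
open scoped IsMulCommutative

variable (K H : Type) [Field K] [NumberField K] [Field H] [NumberField H] [Algebra K H]

/-- The complex group algebra of `Gal(H/K)`. -/
abbrev GR : Type := MonoidAlgebra ℂ Gal(H/K)

variable {K H}

/-- The group `U_{S,T}`: the `S`-units of `H` which are congruent to `1` modulo all places of `H`
over `T`. -/
structure InUST (S : Finset (Place K)) (T : Finset (HeightOneSpectrum (𝓞 K))) (x : H) : Prop where
  ne : x ≠ 0
  out : ∀ q, q ∉ S → ∀ Q : Place H, Over K H Q q → nabs Q x = 1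
  cong : ∀ q ∈ T, ∀ Q : Place H, Over K H Q (.inr q) → nabs Q (x - 1) < 1

/-- `ψ` restricts to an element of `Hom_{ℤ[G]}(U_{S,T}, ℤ[G])`. -/
structure IsFunc (S : Finset (Place K)) (T : Finset (HeightOneSpectrum (𝓞 K)))
    (ψ : H → GR K H) : Prop where
  mul : ∀ x y, InUST S T x → InUST S T y → ψ (x * y) = ψ x + ψ y
  equi : ∀ (g : Gal(H/K)) (x : H), InUST S T x → InUST S T (g x) →
    ψ (g x) = MonoidAlgebra.single g 1 * ψ x
  int : ∀ x, InUST S T x → ∀ g, ∃ n : ℤ, (ψ x).coeff g = n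

/-- Finite formal sums `∑ a (u_1 ∧ ... ∧ u_r)`. -/
abbrev Wedge (K H : Type) [Field K] [NumberField K] [Field H] [NumberField H] [Algebra K H]
    (r : ℕ) : Type := List (GR K H × (Fin r → H))

/-- The coefficients `a` are in `ℚ[G]` and the `u_j` in `U_{S,T}`. -/
def Wedge.Valid {r : ℕ} (S : Finset (Place K)) (T : Finset (HeightOneSpectrum (𝓞 K)))
    (x : Wedge K H r) : Prop :=
  ∀ t ∈ x, (∀ g, ∃ q : ℚ, t.1.coeff g = q) ∧ ∀ j, InUST S T (t.2 j)

/-- The regulator at `w`: `w^*(λ(u)) = ∑_γ log |γ⁻¹ u|_w γ = ∑_γ log |u|_(γ w) γ`. -/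
noncomputable def reg (w : Place H) (u : H) : GR K H :=
  ∑ γ : Gal(H/K), MonoidAlgebra.single γ (Real.log (nabs w (γ⁻¹ u)) : ℂ)

section ab

variable [IsAbelianGalois K H]

/-- The value of `ψ_1 ∧ ... ∧ ψ_r` at `x`: `∑ a det (ψ_i (u_j))`. -/
noncomputable def ev {r : ℕ} (ψ : Fin r → H → GR K H) (x : Wedge K H r) : GR K H :=
  (x.map fun t => t.1 * Matrix.det (Matrix.of fun i j => ψ i (t.2 j))).sum

/-- The function `Θ_{S,T}(s)` (for `a` the Artin map and `Z g` the partial zeta functions):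
`∏_{q ∈ T} (1 - σ_q⁻¹ N q ^ (1 - s)) ∑_g ζ_S(g, s) g⁻¹`. -/
noncomputable def ThetaST (T : Finset (HeightOneSpectrum (𝓞 K))) (a : Ideal (𝓞 K) → Gal(H/K))
    (Z : Gal(H/K) → ℂ → ℂ) (s : ℂ) : GR K H :=
  (∏ q ∈ T, (1 - MonoidAlgebra.single (a q.asIdeal)⁻¹ ((Ideal.absNorm q.asIdeal : ℂ) ^ (1 - s)))) *
    ∑ g : Gal(H/K), MonoidAlgebra.single g⁻¹ (Z g s)

/-- `θ = lim_{s → 0} s ^ (-r) Θ_{S,T}(s)`. -/
def IsTheta (r : ℕ) (T : Finset (HeightOneSpectrum (𝓞 K))) (a : Ideal (𝓞 K) → Gal(H/K))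
    (Z : Gal(H/K) → ℂ → ℂ) (θ : GR K H) : Prop :=
  ∀ g, Filter.Tendsto (fun s : ℂ => (s ^ r)⁻¹ * (ThetaST T a Z s).coeff g)
    (nhdsWithin 0 {0}ᶜ) (nhds (θ.coeff g))

/-- The element `x` of `ℚ ⊗ ⋀^r U_{S,T}` is in Rubin's lattice: it is mapped into `ℤ[G]` by
`ψ_1 ∧ ... ∧ ψ_r` for all `ψ_i ∈ Hom_{ℤ[G]}(U_{S,T}, ℤ[G])`, and `e_r x = x`, that is,
`ψ_1 ∧ ... ∧ ψ_r` maps it into the ideal generated by `e_r`: every `y ∈ ℂ[G]` with `y θ = 0`
annihilates the value. (The ideal of `ℂ[G]` generated by `e_r` is generated by `θ`.) -/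
def InLattice {r : ℕ} (S : Finset (Place K)) (T : Finset (HeightOneSpectrum (𝓞 K))) (θ : GR K H)
    (x : Wedge K H r) : Prop :=
  x.Valid S T ∧ ∀ ψ : Fin r → H → GR K H, (∀ i, IsFunc S T (ψ i)) →
    (∀ g, ∃ n : ℤ, (ev ψ x).coeff g = n) ∧ ∀ y : GR K H, y * θ = 0 → y * ev ψ x = 0

variable (K H)

/-- `c` times Rubin's conjecture for `H / K`, `S`, `T` and the places `v_1, ..., v_r` (`c = 1` is
Rubin's conjecture): for all places `w_i` over `v_i` there is an element `u` of Rubin's lattice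
with `(w_1^* ∧ ... ∧ w_r^*)(λ(u)) = c θ`, `θ = lim s ^ (-r) Θ_{S,T}(s)`. -/
def RubinMul (c : ℤ) (r : ℕ) (S : Finset (Place K)) (T : Finset (HeightOneSpectrum (𝓞 K)))
    (v : Fin r → Place K) : Prop :=
  ∀ w : Fin r → Place H, (∀ i, Over K H (w i) (v i)) →
    ∀ a : Ideal (𝓞 K) → Gal(H/K), IsArtin S a →
    ∀ Z : Gal(H/K) → ℂ → ℂ, (∀ g, IsZeta S a g (Z g)) →
    ∀ θ : GR K H, IsTheta r T a Z θ →
      ∃ u : Wedge K H r, InLattice S T θ u ∧ ev (fun i => reg (w i)) u = (c : ℂ) • θ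

/-- **Rubin's conjecture** for `H / K`, `S`, `T` and the places `v_1, ..., v_r`. -/
def Rubin (r : ℕ) (S : Finset (Place K)) (T : Finset (HeightOneSpectrum (𝓞 K)))
    (v : Fin r → Place K) : Prop :=
  ∀ w : Fin r → Place H, (∀ i, Over K H (w i) (v i)) →
    ∀ a : Ideal (𝓞 K) → Gal(H/K), IsArtin S a →
    ∀ Z : Gal(H/K) → ℂ → ℂ, (∀ g, IsZeta S a g (Z g)) →
    ∀ θ : GR K H, IsTheta r T a Z θ →
      ∃ u : Wedge K H r, InLattice S T θ u ∧ ev (fun i => reg (w i)) u = θ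

/-- The `l`-part of Rubin's conjecture: some multiple by an integer prime to `l` holds. -/
def RubinPart (l : ℕ) (r : ℕ) (S : Finset (Place K)) (T : Finset (HeightOneSpectrum (𝓞 K)))
    (v : Fin r → Place K) : Prop :=
  ∃ c : ℤ, ¬ (l : ℤ) ∣ c ∧ RubinMul K H c r S T v

end ab

/-- The hypotheses of Rubin's conjecture: `S` and `T` are disjoint, `S` contains the infinite
places, the places ramified in `H`, and `r` different places `v_1, ..., v_r` which are totally split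
in `H`; `S` has at least `r + 1` elements; `T` contains two places of different residue
characteristic or one whose residue characteristic exceeds `[K : ℚ] + 1`. -/
structure RData (K H : Type) [Field K] [NumberField K] [Field H] [NumberField H] [Algebra K H]
    (r : ℕ) (S : Finset (Place K)) (T : Finset (HeightOneSpectrum (𝓞 K)))
    (v : Fin r → Place K) : Prop where
  disj : ∀ q ∈ T, Sum.inr q ∉ S
  arch : ∀ v : InfinitePlace K, Sum.inl v ∈ S
  ram : ∀ q : HeightOneSpectrum (𝓞 K), Sum.inr q ∉ S → Unram K H q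
  inj : Function.Injective v
  mem : ∀ i, v i ∈ S
  split : ∀ i, TotallySplit K H (v i)
  card : r + 1 ≤ S.card
  char : (∃ q ∈ T, ∃ q' ∈ T, ringChar (𝓞 K ⧸ q.asIdeal) ≠ ringChar (𝓞 K ⧸ q'.asIdeal)) ∨
    ∃ q ∈ T, Module.finrank ℚ K + 1 < ringChar (𝓞 K ⧸ q.asIdeal)

end Pool.Agent.N598.ST
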