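import Pool.Agent.N598.ST.Main
import Pool.Agent.N598.ST.GA
import Pool.Agent.N598.ST.RDef

set_option autoImplicit false

namespace Pool.Agent.N598.ST

open NumberField IsDedekindDomain
open scoped IsMulCommutative

section lift

variable {K F H : Type} [Field K] [NumberField K] [Field F] [NumberField F] [Field H]
  [NumberField H] [Algebra K F] [Algebra F H] [Algebra K H] [IsScalarTower K F H]

theorem nabs_nonneg (P : Place H) (x : H) : 0 ≤ nabs P x := by
  cases P with
  | inl w => exact pow_nonneg (apply_nonneg w x) _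
  | inr P => exact (HeightOneSpectrum.adicAbv H P).nonneg x

theorem InUST.lift {S : Finset (Place K)} {T : Finset (HeightOneSpectrum (𝓞 K))} {x : F}
    (hx : InUST S T x) : InUST S T (algebraMap F H x) := by
  refine ⟨(map_ne_zero _).2 hx.ne, ?_, ?_⟩
  · intro q hq Q hQ
    obtain ⟨Q', h1, h2⟩ := exists_mid (F := F) Q q hQ
    rw [nabs_mid Q Q' h1, hx.out q hq Q' h2, one_pow]
  · intro q hq Q hQ
    obtain ⟨Q', h1, h2⟩ := exists_mid (F := F) Q (.inr q) hQ
    have e : algebraMap F H x - 1 = algebraMap F H (x - 1) := by rw [map_sub, map_one]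
    rw [e, nabs_mid Q Q' h1]
    exact pow_lt_one₀ (nabs_nonneg _ _) (hx.cong q hq Q' h2) (ldeg_pos (K := F) Q).ne'

variable [IsAbelianGalois K H] [IsAbelianGalois K F]

/-- the restriction homomorphism -/
noncomputable def rr (K F H : Type) [Field K] [NumberField K] [Field F] [NumberField F] [Field H]
    [NumberField H] [Algebra K F] [Algebra F H] [Algebra K H] [IsScalarTower K F H]
    [IsAbelianGalois K H] [IsAbelianGalois K F] : Gal(H/K) →* Gal(F/K) :=
  AlgEquiv.restrictNormalHom F

theorem rr_surj : Function.Surjective (rr K F H) := AlgEquiv.restrictNormalHom_surjective H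

theorem rr_apply (g : Gal(H/K)) (x : F) : algebraMap F H (rr K F H g x) = g (algebraMap F H x) :=
  AlgEquiv.restrictNormal_commutes g F x

theorem reg_coeff (w : Place H) (x : H) (g : Gal(H/K)) :
    (reg w x : GR K H).coeff g = (Real.log (nabs w (g⁻¹ x)) : ℂ) := by
  classical
  rw [reg, MonoidAlgebra.coeff_sum]
  simp [Finsupp.single_apply]

theorem reg_lift {p : Place K} (hp : TotallySplit K H p) (w : Place H) (w' : Place F)
    (h : Over F H w w') (h' : Over K F w' p) (x : F) :
    (reg w (algebraMap F H x) : GR K H) = iota (rr K F H) (reg w' x) := by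
  refine ga_ext fun g => ?_
  rw [reg_coeff, iota_coeff, reg_coeff, ← map_inv, ← nabs_split hp w w' h h', rr_apply]

/-- restriction of functionals -/
theorem IsFunc.restrict {S : Finset (Place K)} {T : Finset (HeightOneSpectrum (𝓞 K))}
    {ψ : H → GR K H} (hψ : IsFunc S T ψ) : ∃ ψ' : F → GR K F, IsFunc S T ψ' ∧
      ∀ x : F, InUST S T x → ψ (algebraMap F H x) = iota (rr K F H) (ψ' x) := by
  let s : Gal(F/K) → Gal(H/K) := Function.surjInv (rr_surj (K := K) (F := F) (H := H))
  have hs : ∀ u, rr K F H (s u) = u := Function.surjInv_eq _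
  let ψ' : F → GR K F := fun x => MonoidAlgebra.ofCoeff
    (Finsupp.equivFunOnFinite.symm fun u => (ψ (algebraMap F H x)).coeff (s u))
  have key : ∀ x : F, InUST S T x → ψ (algebraMap F H x) = iota (rr K F H) (ψ' x) := by
    intro x hx
    refine ga_ext fun g => ?_
    rw [iota_coeff]
    change (ψ (algebraMap F H x)).coeff g = (ψ (algebraMap F H x)).coeff (s (rr K F H g))
    set h := s (rr K F H g) with hh
    have h1 : rr K F H (h * g⁻¹) = 1 := by rw [map_mul, map_inv, hh, hs, mul_inv_cancel]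
    have h2 : (h * g⁻¹) (algebraMap F H x) = algebraMap F H x := by
      rw [← rr_apply (h * g⁻¹) x, h1]; rfl
    have h3 := hψ.equi (h * g⁻¹) (algebraMap F H x) hx.lift (by rw [h2]; exact hx.lift)
    rw [h2] at h3
    conv_rhs => rw [h3]
    rw [MonoidAlgebra.coeff_single_mul_apply]
    simp
  refine ⟨ψ', ⟨?_, ?_, ?_⟩, key⟩
  · intro x y hx hy
    refine ga_ext fun u => ?_
    change (ψ (algebraMap F H (x * y))).coeff (s u) = _
    rw [map_mul, hψ.mul _ _ hx.lift hy.lift]
    rfl
  · intro u x hx hux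
    apply iota_inj (rr K F H) rr_surj
    rw [← key _ hux]
    have e : algebraMap F H (u x) = s u (algebraMap F H x) := by rw [← rr_apply, hs]
    rw [e, hψ.equi (s u) _ hx.lift (by rw [← e]; exact hux.lift), key x hx, mul_iota, pr_single, hs]
  · intro x hx u
    exact hψ.int _ hx.lift (s u)

/-- the lift of formal wedges -/
noncomputable def liftW {r : ℕ} (x : Wedge K F r) : Wedge K H r :=
  x.map fun t => ((((ker (rr K F H) : ℂ)⁻¹) ^ r) • iota (rr K F H) t.1,
    fun j => algebraMap F H (t.2 j))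

theorem liftW_valid {r : ℕ} {S : Finset (Place K)} {T : Finset (HeightOneSpectrum (𝓞 K))}
    {x : Wedge K F r} (hx : x.Valid S T) : (liftW (H := H) x).Valid S T := by
  intro t ht
  obtain ⟨t', ht', rfl⟩ := List.mem_map.1 ht
  refine ⟨fun g => ?_, fun j => ((hx t' ht').2 j).lift⟩
  obtain ⟨q, hq⟩ := (hx t' ht').1 (rr K F H g)
  refine ⟨((ker (rr K F H) : ℚ)⁻¹) ^ r * q, ?_⟩
  change ((ker (rr K F H) : ℂ)⁻¹) ^ r * (t'.1.coeff (rr K F H g)) = _
  rw [hq]; push_cast; rfl

theorem ev_liftW {r : ℕ} {S : Finset (Place K)} {T : Finset (HeightOneSpectrum (𝓞 K))}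
    (ψ : Fin (r + 1) → H → GR K H) (ψ' : Fin (r + 1) → F → GR K F)
    (h : ∀ i x, InUST S T x → ψ i (algebraMap F H x) = iota (rr K F H) (ψ' i x))
    (x : Wedge K F (r + 1)) (hx : x.Valid S T) :
    ev ψ (liftW (H := H) x) = iota (rr K F H) (ev ψ' x) := by
  induction x with
  | nil => simp [ev, liftW, iota_zero]
  | cons t x ih =>
    have ih' := ih (fun t' ht' => hx t' (List.mem_cons_of_mem _ ht'))
    have e1 : ev ψ (liftW (H := H) (t :: x)) = (((ker (rr K F H) : ℂ)⁻¹) ^ (r + 1)) •
        iota (rr K F H) t.1 * Matrix.det (Matrix.of fun i j => ψ i (algebraMap F H (t.2 j))) +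
        ev ψ (liftW (H := H) x) := by
      simp [ev, liftW]
    have e2 : ev ψ' (t :: x) = t.1 * Matrix.det (Matrix.of fun i j => ψ' i (t.2 j)) + ev ψ' x := by
      simp [ev]
    rw [e1, e2, iota_add, ih']
    congr 1
    have e3 : (Matrix.of fun i j => ψ i (algebraMap F H (t.2 j))) =
        (Matrix.of fun i j => ψ' i (t.2 j)).map (iota (rr K F H)) := by
      ext1 i j
      exact h i _ ((hx t List.mem_cons_self).2 j)
    rw [e3]
    exact term_iota (rr K F H) rr_surj r t.1 _

theorem InLattice.lift {r : ℕ} {S : Finset (Place K)} {T : Finset (HeightOneSpectrum (𝓞 K))}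
    {θ : GR K H} {x : Wedge K F (r + 1)} (hx : InLattice S T (pr (rr K F H) θ) x) :
    InLattice S T θ (liftW (H := H) x) := by
  refine ⟨liftW_valid hx.1, fun ψ hψ => ?_⟩
  choose ψ' h1 h2 using fun i => (hψ i).restrict (F := F)
  obtain ⟨h3, h4⟩ := hx.2 ψ' h1
  rw [ev_liftW ψ ψ' h2 x hx.1]
  refine ⟨fun g => h3 (rr K F H g), fun y hy => ?_⟩
  rw [mul_iota, h4 (pr (rr K F H) y) (by rw [← map_mul, hy, map_zero]), iota_zero]

end lift

end Pool.Agent.N598.ST
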