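import Pool.Agent.N598.ST.RMain
import Pool.Agent.N598.ST.Gen

set_option autoImplicit false

namespace Pool.Agent.N598.ST

open NumberField IsDedekindDomain
open scoped IsMulCommutative

section theta

variable {K F H : Type} [Field K] [NumberField K] [Field F] [NumberField F] [Field H]
  [NumberField H] [Algebra K F] [Algebra F H] [Algebra K H] [IsScalarTower K F H]
  [IsAbelianGalois K H] [IsAbelianGalois K F]

open Classical in
theorem pr_theta (T : Finset (HeightOneSpectrum (𝓞 K))) (a : Ideal (𝓞 K) → Gal(H/K))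
    (Z : Gal(H/K) → ℂ → ℂ) (s : ℂ) :
    pr (rr K F H) (ThetaST T a Z s) = ThetaST T (fun 𝔞 => rr K F H (a 𝔞))
      (fun u s => ∑ h : Gal(H/K), if rr K F H h = u then Z h s else 0) s := by
  unfold ThetaST
  rw [map_mul, map_prod, map_sum]
  congr 1
  · refine Finset.prod_congr rfl fun q _ => ?_
    rw [map_sub, map_one, pr_single, map_inv]
  · simp only [pr_single, map_inv]
    have e : ∀ u : Gal(F/K), MonoidAlgebra.single u⁻¹
        (∑ h : Gal(H/K), if rr K F H h = u then Z h s else 0) =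
        ∑ h : Gal(H/K), if rr K F H h = u then MonoidAlgebra.single (rr K F H h)⁻¹ (Z h s) else 0 := by
      intro u
      refine ga_ext fun k => ?_
      rw [MonoidAlgebra.coeff_sum, MonoidAlgebra.coeff_single, Finsupp.single_apply]
      rw [Finsupp.finset_sum_apply]
      split_ifs with hk
      · refine Finset.sum_congr rfl fun h _ => ?_
        split_ifs with h2
        · rw [MonoidAlgebra.coeff_single, Finsupp.single_apply, if_pos (by rw [h2]; exact hk)]
        · simp
      · symm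
        apply Finset.sum_eq_zero
        intro h _
        split_ifs with h2
        · rw [MonoidAlgebra.coeff_single, Finsupp.single_apply, if_neg (by rw [h2]; exact hk)]
        · simp
    rw [Finset.sum_congr rfl fun u _ => e u, Finset.sum_comm]
    refine Finset.sum_congr rfl fun h _ => ?_
    rw [Finset.sum_ite_eq, if_pos (Finset.mem_univ _)]

theorem IsTheta.restrict {r : ℕ} {T : Finset (HeightOneSpectrum (𝓞 K))}
    {a : Ideal (𝓞 K) → Gal(H/K)} {Z : Gal(H/K) → ℂ → ℂ} {θ : GR K H} (h : IsTheta r T a Z θ) :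
    IsTheta r T (fun 𝔞 => rr K F H (a 𝔞))
      (fun u s => by classical exact ∑ h : Gal(H/K), if rr K F H h = u then Z h s else 0)
      (pr (rr K F H) θ) := by
  classical
  intro u
  rw [pr_coeff]
  have e : (fun s : ℂ => (s ^ r)⁻¹ * (ThetaST T (fun 𝔞 => rr K F H (a 𝔞))
      (fun u s => ∑ h : Gal(H/K), if rr K F H h = u then Z h s else 0) s).coeff u) =
      fun s => ∑ g : Gal(H/K), if rr K F H g = u then (s ^ r)⁻¹ * (ThetaST T a Z s).coeff g else 0 := by
    funext s
    rw [← pr_theta, pr_coeff, Finset.mul_sum]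
    refine Finset.sum_congr rfl fun g _ => ?_
    split_ifs <;> simp
  have h2 : Filter.Tendsto (fun s : ℂ => ∑ g : Gal(H/K),
      if rr K F H g = u then (s ^ r)⁻¹ * (ThetaST T a Z s).coeff g else 0)
      (nhdsWithin 0 {0}ᶜ) (nhds (∑ g : Gal(H/K), if rr K F H g = u then θ.coeff g else 0)) := by
    apply tendsto_finset_sum
    intro g _
    split_ifs
    · exact h g
    · exact tendsto_const_nhds
  rw [← e] at h2
  convert h2 using 1

end theta

section good

variable {K H : Type} [Field K] [NumberField K] [Field H] [NumberField H] [Algebra K H]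
  [IsAbelianGalois K H]

theorem ev_append {r : ℕ} (ψ : Fin r → H → GR K H) (x y : Wedge K H r) :
    ev ψ (x ++ y) = ev ψ x + ev ψ y := by
  simp [ev]

/-- negation -/
noncomputable def negW {r : ℕ} (x : Wedge K H r) : Wedge K H r := x.map fun t => (-t.1, t.2)

theorem ev_neg {r : ℕ} (ψ : Fin r → H → GR K H) (x : Wedge K H r) :
    ev ψ (negW x) = - ev ψ x := by
  induction x with
  | nil => simp [ev, negW]
  | cons t x ih =>
    have e1 : ev ψ (negW (t :: x)) = (-t.1) * Matrix.det (Matrix.of fun i j => ψ i (t.2 j)) +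
        ev ψ (negW x) := by simp [ev, negW]
    have e2 : ev ψ (t :: x) = t.1 * Matrix.det (Matrix.of fun i j => ψ i (t.2 j)) + ev ψ x := by
      simp [ev]
    rw [e1, e2, ih, neg_add, neg_mul]

/-- the values of the regulator on Rubin's lattice -/
noncomputable def goodR {r : ℕ} (S : Finset (Place K)) (T : Finset (HeightOneSpectrum (𝓞 K)))
    (w : Fin r → Place H) (θ : GR K H) : AddSubgroup (GR K H) where
  carrier := {φ | ∃ u : Wedge K H r, InLattice S T θ u ∧ ev (fun i => reg (w i)) u = φ}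
  add_mem' := by
    rintro _ _ ⟨x, ⟨hx1, hx2⟩, rfl⟩ ⟨y, ⟨hy1, hy2⟩, rfl⟩
    refine ⟨x ++ y, ⟨fun t ht => ?_, fun ψ hψ => ⟨fun g => ?_, fun z hz => ?_⟩⟩, ev_append _ _ _⟩
    · rcases List.mem_append.1 ht with h | h
      · exact hx1 t h
      · exact hy1 t h
    · obtain ⟨n, hn⟩ := (hx2 ψ hψ).1 g
      obtain ⟨m, hm⟩ := (hy2 ψ hψ).1 g
      refine ⟨n + m, ?_⟩
      rw [ev_append, MonoidAlgebra.coeff_add, Finsupp.add_apply, hn, hm]; push_cast; rfl
    · rw [ev_append, mul_add, (hx2 ψ hψ).2 z hz, (hy2 ψ hψ).2 z hz, add_zero]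
  zero_mem' := by
    refine ⟨[], ⟨fun t ht => by simp at ht, fun ψ hψ => ⟨fun g => ⟨0, by simp [ev]⟩,
      fun z hz => by simp [ev]⟩⟩, by simp [ev]⟩
  neg_mem' := by
    rintro _ ⟨x, ⟨hx1, hx2⟩, rfl⟩
    refine ⟨negW x, ⟨fun t ht => ?_, fun ψ hψ => ⟨fun g => ?_, fun z hz => ?_⟩⟩, ev_neg _ _⟩
    · obtain ⟨t', ht', rfl⟩ := List.mem_map.1 ht
      refine ⟨fun g => ?_, (hx1 t' ht').2⟩
      obtain ⟨q, hq⟩ := (hx1 t' ht').1 g
      refine ⟨-q, ?_⟩
      change (-t'.1).coeff g = _
      rw [MonoidAlgebra.coeff_neg, Finsupp.neg_apply, hq]; push_cast; rfl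
    · obtain ⟨n, hn⟩ := (hx2 ψ hψ).1 g
      refine ⟨-n, ?_⟩
      rw [ev_neg, MonoidAlgebra.coeff_neg, Finsupp.neg_apply, hn]; push_cast; rfl
    · rw [ev_neg, mul_neg, (hx2 ψ hψ).2 z hz, neg_zero]

/-- `iota ∘ pr` for a subgroup `N`: `φ ↦ N φ` -/
noncomputable def nrm (N : Subgroup Gal(H/K)) (φ : GR K H) : GR K H := by
  classical
  exact MonoidAlgebra.ofCoeff (Finsupp.equivFunOnFinite.symm fun g => ∑ h : Gal(H/K),
    if g⁻¹ * h ∈ N then φ.coeff h else 0)

theorem nrm_eq (N : Subgroup Gal(H/K)) (φ : GR K H) :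
    iota (rr K (IntermediateField.fixedField N) H)
      (pr (rr K (IntermediateField.fixedField N) H) φ) = nrm N φ := by
  classical
  refine ga_ext fun g => ?_
  rw [iota_coeff, pr_coeff]
  change _ = ∑ h : Gal(H/K), if g⁻¹ * h ∈ N then φ.coeff h else 0
  refine Finset.sum_congr rfl fun h _ => ?_
  have : g⁻¹ * h ∈ N ↔ rr K (IntermediateField.fixedField N) H h =
        rr K (IntermediateField.fixedField N) H g := by
    unfold rr
    conv_lhs => rw [← IntermediateField.fixingSubgroup_fixedField N]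
    rw [← IntermediateField.restrictNormalHom_ker, MonoidHom.mem_ker, map_mul, map_inv,
      inv_mul_eq_one, eq_comm]
  simp only [this]

open Classical in
theorem nrm_relation (m : ℕ) (hm : m.Prime) (V : Subgroup Gal(H/K)) (hV : Nat.card V = m ^ 2)
    (hV2 : ∀ t ∈ V, t ^ m = 1) (φ : GR K H) :
    (∑ N : Subgroup Gal(H/K), if N ≤ V ∧ Nat.card N = m then nrm N φ else 0) - nrm V φ =
      (m : ℂ) • φ := by
  refine ga_ext fun g => ?_
  rw [MonoidAlgebra.coeff_sub, MonoidAlgebra.coeff_sum, Finsupp.sub_apply, Finsupp.finset_sum_apply]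
  have e1 : ∀ N : Subgroup Gal(H/K), (if N ≤ V ∧ Nat.card N = m then nrm N φ else 0).coeff g =
      ∑ h : Gal(H/K), (if N ≤ V ∧ Nat.card N = m then (if g⁻¹ * h ∈ N then (1 : ℂ) else 0) else 0) *
        φ.coeff h := by
    intro N
    split_ifs with hc
    · change (∑ h : Gal(H/K), if g⁻¹ * h ∈ N then φ.coeff h else 0) = _
      refine Finset.sum_congr rfl fun h _ => ?_
      split_ifs <;> simp
    · simp
  rw [Finset.sum_congr rfl fun N _ => e1 N, Finset.sum_comm]
  have e2 : ∀ h : Gal(H/K), ∑ N : Subgroup Gal(H/K),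
      (if N ≤ V ∧ Nat.card N = m then (if g⁻¹ * h ∈ N then (1 : ℂ) else 0) else 0) *
        φ.coeff h = ((if g⁻¹ * h ∈ V then 1 else 0) +
          (if g⁻¹ * h = 1 then (m : ℂ) else 0)) * φ.coeff h := by
    intro h
    rw [← Finset.sum_mul]
    congr 1
    have h3 := relation m hm V hV hV2 (g⁻¹ * h)
    have h4 := congrArg (fun z : ℤ => (z : ℂ)) h3
    push_cast at h4
    exact h4
  have e3 : (nrm V φ).coeff g = ∑ h : Gal(H/K), if g⁻¹ * h ∈ V then φ.coeff h else 0 := rfl
  rw [Finset.sum_congr rfl fun h _ => e2 h, e3, ← Finset.sum_sub_distrib]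
  rw [Finset.sum_eq_single g]
  · simp
    ring
  · intro h _ hne
    have : g⁻¹ * h ≠ 1 := fun h0 => hne (inv_mul_eq_one.1 h0).symm
    rw [if_neg this]
    split_ifs <;> simp
  · intro h; exact absurd (Finset.mem_univ _) h

theorem rubin_prime {r : ℕ} {S : Finset (Place K)} {T : Finset (HeightOneSpectrum (𝓞 K))}
    {v : Fin (r + 1) → Place K} (hv : ∀ i, TotallySplit K H (v i)) {c : ℤ}
    (hF : ∀ N : Subgroup Gal(H/K), N ≠ ⊥ →
      RubinMul K (IntermediateField.fixedField N) c (r + 1) S T v)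
    (m : ℕ) (hm : m.Prime) (V : Subgroup Gal(H/K)) (hV : Nat.card V = m ^ 2)
    (hV2 : ∀ t ∈ V, t ^ m = 1) : RubinMul K H (c * m) (r + 1) S T v := by
  classical
  intro w hw a ha Z hZ θ hθ
  have hN : ∀ N : Subgroup Gal(H/K), N ≠ ⊥ → c • nrm N θ ∈ goodR S T w θ := by
    intro N hN
    choose w' hw1 hw2 using fun i => exists_mid (F := IntermediateField.fixedField N) (w i) (v i) (hw i)
    obtain ⟨u, hu1, hu2⟩ := hF N hN w' hw2 _ (ha.restrict (F := IntermediateField.fixedField N)) _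
      (fun u => IsZeta.restrict hZ u) _ (hθ.restrict (F := IntermediateField.fixedField N))
    refine ⟨liftW (H := H) u, hu1.lift, ?_⟩
    rw [ev_liftW (S := S) (T := T) (fun i => reg (w i)) (fun i => reg (w' i))
      (fun i x _ => reg_lift (hv i) (w i) (w' i) (hw1 i) (hw2 i) x) u hu1.1, hu2, iota_smul, nrm_eq]
    exact Int.cast_smul_eq_zsmul ℂ c _
  have hV0 : V ≠ ⊥ := by
    intro h0
    rw [h0, Subgroup.card_bot] at hV
    have := Nat.one_lt_pow (n := 2) (by norm_num) hm.one_lt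
    omega
  have hsum : (∑ N : Subgroup Gal(H/K), if N ≤ V ∧ Nat.card N = m then c • nrm N θ else 0) ∈
      goodR S T w θ := by
    apply AddSubgroup.sum_mem
    intro N _
    split_ifs with hc
    · apply hN
      intro h0
      rw [h0, Subgroup.card_bot] at hc
      exact hm.one_lt.ne hc.2
    · exact AddSubgroup.zero_mem _
  have h2 := AddSubgroup.sub_mem _ hsum (hN V hV0)
  have e : (∑ N : Subgroup Gal(H/K), if N ≤ V ∧ Nat.card N = m then c • nrm N θ else 0) -
      c • nrm V θ = ((c * m : ℤ) : ℂ) • θ := by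
    have e0 : (∑ N : Subgroup Gal(H/K), if N ≤ V ∧ Nat.card N = m then c • nrm N θ else 0) =
        c • ∑ N : Subgroup Gal(H/K), if N ≤ V ∧ Nat.card N = m then nrm N θ else 0 := by
      rw [Finset.smul_sum]
      refine Finset.sum_congr rfl fun N _ => ?_
      split_ifs <;> simp
    rw [e0, ← smul_sub, nrm_relation m hm V hV hV2]
    push_cast
    rw [mul_smul]
    exact (Int.cast_smul_eq_zsmul ℂ c _).symm
  rw [e] at h2
  exact h2

theorem rubinMul_ideal (r : ℕ) (S : Finset (Place K)) (T : Finset (HeightOneSpectrum (𝓞 K)))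
    (v : Fin r → Place K) : ∃ I : AddSubgroup ℤ, ∀ c, c ∈ I ↔ RubinMul K H c r S T v := by
  refine ⟨⟨⟨⟨{c | RubinMul K H c r S T v}, ?_⟩, ?_⟩, ?_⟩, fun c => Iff.rfl⟩
  · intro c d hc hd w hw a ha Z hZ θ hθ
    have h := AddSubgroup.add_mem (goodR S T w θ) (hc w hw a ha Z hZ θ hθ) (hd w hw a ha Z hZ θ hθ)
    rw [← add_smul] at h
    rw [Int.cast_add]
    exact h
  · intro w hw a ha Z hZ θ hθ
    have h := AddSubgroup.zero_mem (goodR S T w θ)
    rw [Int.cast_zero, zero_smul]
    exact h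
  · intro c hc w hw a ha Z hZ θ hθ
    have h := AddSubgroup.neg_mem (goodR S T w θ) (hc w hw a ha Z hZ θ hθ)
    rw [← neg_smul] at h
    rw [Int.cast_neg]
    exact h

theorem rubin_iff (r : ℕ) (S : Finset (Place K)) (T : Finset (HeightOneSpectrum (𝓞 K)))
    (v : Fin r → Place K) : Rubin K H r S T v ↔ RubinMul K H 1 r S T v := by
  unfold Rubin RubinMul
  simp only [Int.cast_one, one_smul]

theorem rubin_iff_parts (r : ℕ) (S : Finset (Place K)) (T : Finset (HeightOneSpectrum (𝓞 K)))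
    (v : Fin r → Place K) :
    Rubin K H r S T v ↔ ∀ l : ℕ, l.Prime → RubinPart K H l r S T v := by
  obtain ⟨I, hI⟩ := rubinMul_ideal (K := K) (H := H) r S T v
  constructor
  · intro h l hl
    refine ⟨1, fun h1 => ?_, (rubin_iff r S T v).1 h⟩
    have : l ∣ 1 := by exact_mod_cast h1
    exact hl.one_lt.ne' (Nat.dvd_one.1 this)
  · intro h
    rw [rubin_iff, ← hI]
    apply one_of_parts
    intro l hl
    obtain ⟨c, hc, hc2⟩ := h l hl
    exact ⟨c, hc, (hI c).2 hc2⟩

end good

theorem rubin_part_of_sub {K : Type} [Field K] [NumberField K] {r : ℕ} {S : Finset (Place K)}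
    {T : Finset (HeightOneSpectrum (𝓞 K))} {v : Fin (r + 1) → Place K} (l : ℕ) (hl : l.Prime)
    (H : Type) [Field H] [NumberField H] [Algebra K H] [IsAbelianGalois K H]
    (hv : ∀ i, TotallySplit K H (v i))
    (h : ∀ (L : Type) [Field L] [NumberField L] [Algebra K L] [IsAbelianGalois K L],
        Nonempty (L →ₐ[K] H) → CyclicOutside l Gal(L/K) → RubinPart K L l (r + 1) S T v) :
    RubinPart K H l (r + 1) S T v := by
  refine part_principle (K := K)
    (fun H _ _ _ _ c => RubinMul K H c (r + 1) S T v)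
    (fun H _ _ _ _ => ∀ i, TotallySplit K H (v i)) ?_ ?_ ?_ l hl _ H rfl hv h
  · intro H _ _ _ _ hH N i
    exact (hH i).sub H
  · intro H _ _ _ _ c k hc
    obtain ⟨I, hI⟩ := rubinMul_ideal (K := K) (H := H) (r + 1) S T v
    rw [← hI] at hc ⊢
    exact AddSubgroup.zsmul_mem I hc k
  · intro H _ _ _ _ hH c hN m hm V hV hV2
    exact rubin_prime hH hN m hm V hV hV2

end Pool.Agent.N598.ST
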