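import Pool.Agent.N598.ST.Loc
import Pool.Agent.N598.ST.Ab

set_option autoImplicit false

namespace Pool.Agent.N598.ST

open NumberField IsDedekindDomain

variable {K F H : Type} [Field K] [NumberField K] [Field F] [NumberField F] [Field H]
  [NumberField H] [Algebra K F] [Algebra F H] [Algebra K H] [IsScalarTower K F H]

theorem IsArtin.restrict [Normal K F] {S : Finset (Place K)} {a : Ideal (𝓞 K) → Gal(H/K)}
    (ha : IsArtin S a) : IsArtin S (fun 𝔞 => AlgEquiv.restrictNormalHom F (a 𝔞)) := by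
  refine ⟨by rw [ha.one, map_one], fun 𝔞 𝔟 h1 h2 => by rw [ha.mul _ _ h1 h2, map_mul], ?_⟩
  intro q hq P' hP' x y hxy
  obtain ⟨P, hP⟩ := exists_top (F := F) (H := H) (.inr P')
  match P, hP with
  | .inr P, hP =>
    have hP1 : P.asIdeal.LiesOver P'.asIdeal := hP
    have hP2 : P.asIdeal.LiesOver q.asIdeal := Ideal.LiesOver.trans P.asIdeal P'.asIdeal q.asIdeal
    have hmem : algebraMap (𝓞 F) (𝓞 H) y ∈ P.asIdeal := by
      refine ha.frob q hq P hP2 (algebraMap (𝓞 F) (𝓞 H) x) (algebraMap (𝓞 F) (𝓞 H) y) ?_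
      have e : ∀ z : 𝓞 F, ((algebraMap (𝓞 F) (𝓞 H) z : 𝓞 H) : H) = algebraMap F H (z : F) :=
        fun z => rfl
      rw [e, e, hxy, map_sub, map_pow]
      congr 1
      exact AlgEquiv.restrictNormal_commutes (a q.asIdeal) F (x : F)
    have : y ∈ P.asIdeal.under (𝓞 F) := hmem
    rwa [← hP1.over] at this

open Classical in
theorem IsZeta.restrict [Normal K F] {S : Finset (Place K)} {a : Ideal (𝓞 K) → Gal(H/K)}
    {Z : Gal(H/K) → ℂ → ℂ} (hZ : ∀ g, IsZeta S a g (Z g)) (u : Gal(F/K)) :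
    IsZeta S (fun 𝔞 => AlgEquiv.restrictNormalHom F (a 𝔞)) u
      (fun s => ∑ h : Gal(H/K), if AlgEquiv.restrictNormalHom F h = u then Z h s else 0) := by
  constructor
  · apply DifferentiableOn.fun_sum
    intro h _
    split_ifs
    · exact (hZ h).hol
    · exact differentiableOn_const _
  · intro s hs
    have h1 : HasSum (fun 𝔞 : Ideal (𝓞 K) => ∑ h : Gal(H/K),
        if AlgEquiv.restrictNormalHom F h = u then
          (if PrimeTo S 𝔞 ∧ a 𝔞 = h then ((Ideal.absNorm 𝔞 : ℂ)) ^ (-s) else 0) else 0)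
        (∑ h : Gal(H/K), if AlgEquiv.restrictNormalHom F h = u then Z h s else 0) := by
      apply hasSum_sum
      intro h _
      split_ifs
      · exact (hZ h).sum s hs
      · exact hasSum_zero
    refine h1.congr_fun ?_ |> id
    intro 𝔞
    by_cases hc : PrimeTo S 𝔞
    · simp only [hc, true_and]
      rw [Finset.sum_eq_single (a 𝔞)]
      · simp
      · intro b _ hb
        simp [Ne.symm hb]
      · intro h; exact absurd (Finset.mem_univ _) h
    · simp [hc]

open Classical in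
theorem deriv_restrict [Normal K F] {S : Finset (Place K)} {a : Ideal (𝓞 K) → Gal(H/K)}
    {Z : Gal(H/K) → ℂ → ℂ} (hZ : ∀ g, IsZeta S a g (Z g)) (u : Gal(F/K)) :
    deriv (fun s => ∑ h : Gal(H/K), if AlgEquiv.restrictNormalHom F h = u then Z h s else 0) 0 =
      ∑ h : Gal(H/K), if AlgEquiv.restrictNormalHom F h = u then deriv (Z h) 0 else 0 := by
  rw [deriv_fun_sum]
  · refine Finset.sum_congr rfl fun h _ => ?_
    split_ifs <;> simp
  · intro h _
    split_ifs
    · exact ((hZ h).hol 0 (by simp)).differentiableAt (isOpen_compl_singleton.mem_nhds (by simp))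
    · exact differentiableAt_const _

omit [NumberField K] [NumberField F] [NumberField H] [Algebra K F] [Algebra K H]
  [IsScalarTower K F H] [Field K] in
theorem W_dvd : W F ∣ W H := by
  let f : CommGroup.torsion Fˣ →* CommGroup.torsion Hˣ :=
    ((Units.map (algebraMap F H).toMonoidHom).comp (CommGroup.torsion Fˣ).subtype).codRestrict
      (CommGroup.torsion Hˣ) (fun x => (Units.map (algebraMap F H).toMonoidHom).isOfFinOrder x.2)
  refine Subgroup.card_dvd_of_injective f ?_
  intro x y hxy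
  have h1 : Units.map (algebraMap F H).toMonoidHom (x : Fˣ) =
      Units.map (algebraMap F H).toMonoidHom (y : Fˣ) := congrArg Subtype.val hxy
  exact Subtype.ext (Units.map_injective (algebraMap F H).injective h1)

theorem InU.one (S : Finset (Place K)) (p : Place K) : InU S p (1 : H) :=
  ⟨one_ne_zero, fun _ _ _ _ => nabs_one _, fun _ _ _ _ _ _ => nabs_one _,
    fun _ _ _ _ _ _ _ _ => by rw [nabs_one, nabs_one]⟩

theorem InU.mul {S : Finset (Place K)} {p : Place K} {x y : H} (hx : InU S p x) (hy : InU S p y) :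
    InU S p (x * y) := by
  refine ⟨mul_ne_zero hx.ne hy.ne, ?_, ?_, ?_⟩
  · intro q hq Q hQ; rw [nabs_mul, hx.out q hq Q hQ, hy.out q hq Q hQ, one_mul]
  · intro h q hq hqp Q hQ; rw [nabs_mul, hx.many h q hq hqp Q hQ, hy.many h q hq hqp Q hQ, one_mul]
  · intro h q hq hqp Q Q' hQ hQ'
    rw [nabs_mul, nabs_mul, hx.single h q hq hqp Q Q' hQ hQ', hy.single h q hq hqp Q Q' hQ hQ']

theorem InU.inv {S : Finset (Place K)} {p : Place K} {x : H} (hx : InU S p x) :
    InU S p x⁻¹ := by
  refine ⟨inv_ne_zero hx.ne, ?_, ?_, ?_⟩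
  · intro q hq Q hQ; rw [nabs_inv, hx.out q hq Q hQ, inv_one]
  · intro h q hq hqp Q hQ; rw [nabs_inv, hx.many h q hq hqp Q hQ, inv_one]
  · intro h q hq hqp Q Q' hQ hQ'
    rw [nabs_inv, nabs_inv, hx.single h q hq hqp Q Q' hQ hQ']

theorem InU.pow {S : Finset (Place K)} {p : Place K} {x : H} (hx : InU S p x) (n : ℕ) :
    InU S p (x ^ n) := by
  induction n with
  | zero => rw [pow_zero]; exact InU.one S p
  | succ n ih => rw [pow_succ]; exact ih.mul hx

theorem nabs_pow (P : Place H) (x : H) (n : ℕ) : nabs P (x ^ n) = nabs P x ^ n := by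
  induction n with
  | zero => rw [pow_zero, pow_zero, nabs_one]
  | succ n ih => rw [pow_succ, nabs_mul, ih, pow_succ]

/-- The function `φ` on `Gal(H/K)` is realised by an abelian element of `U^T`. -/
def Good (S : Finset (Place K)) (p : Place K) (P : Place H) (φ : Gal(H/K) → ℂ) : Prop :=
  ∃ ε : H, InU S p ε ∧ (∀ g : Gal(H/K), (Real.log (nabs P (g ε)) : ℂ) = -(W H * φ g)) ∧
    AbOm K (W H) ε

theorem Good.add {S : Finset (Place K)} {p : Place K} {P : Place H} {φ ψ : Gal(H/K) → ℂ}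
    (h1 : Good S p P φ) (h2 : Good S p P ψ) : Good S p P (fun g => φ g + ψ g) := by
  obtain ⟨x, hx, hx1, hx2⟩ := h1
  obtain ⟨y, hy, hy1, hy2⟩ := h2
  refine ⟨x * y, hx.mul hy, fun g => ?_, hx2.mul hy2⟩
  rw [map_mul, nabs_mul, Real.log_mul (nabs_pos P ((map_ne_zero _).2 hx.ne)).ne'
    (nabs_pos P ((map_ne_zero _).2 hy.ne)).ne', Complex.ofReal_add, hx1, hy1]
  ring

theorem Good.neg {S : Finset (Place K)} {p : Place K} {P : Place H} {φ : Gal(H/K) → ℂ}
    (h1 : Good S p P φ) : Good S p P (fun g => - φ g) := by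
  obtain ⟨x, hx, hx1, hx2⟩ := h1
  refine ⟨x⁻¹, hx.inv, fun g => ?_, hx2.inv⟩
  rw [map_inv₀, nabs_inv, Real.log_inv, Complex.ofReal_neg, hx1]
  ring

open Classical in
/-- a multiple of the conjecture for `F` gives a good function for `H` -/
theorem good_of_stark [IsAbelianGalois K H] [Normal K F] {S : Finset (Place K)} {p : Place K}
    (hp : TotallySplit K H p) {c : ℤ} (hF : StarkMul K F c S p) (P : Place H) (hP : Over K H P p)
    {a : Ideal (𝓞 K) → Gal(H/K)} (ha : IsArtin S a) {Z : Gal(H/K) → ℂ → ℂ}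
    (hZ : ∀ g, IsZeta S a g (Z g)) :
    Good S p P (fun g => c * ∑ h : Gal(H/K),
      if AlgEquiv.restrictNormalHom F h = AlgEquiv.restrictNormalHom F g
        then deriv (Z h) 0 else 0) := by
  obtain ⟨P', hP1, hP2⟩ := exists_mid (F := F) P p hP
  obtain ⟨ε, h1, h2, h3⟩ := hF P' hP2 _ (ha.restrict (F := F)) _ (fun u => IsZeta.restrict hZ u)
  obtain ⟨k, hk⟩ := W_dvd (F := F) (H := H)
  have : IsGalois K F := ⟨⟩
  refine ⟨algebraMap F H ε ^ k, h1.lift.pow k, fun g => ?_, ?_⟩
  · have h4 := h2 (AlgEquiv.restrictNormalHom F g)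
    rw [deriv_restrict hZ] at h4
    have h5 : g (algebraMap F H ε) = algebraMap F H (AlgEquiv.restrictNormalHom F g ε) :=
      (AlgEquiv.restrictNormal_commutes g F ε).symm
    have h6 : nabs P (g (algebraMap F H ε ^ k)) = nabs P' (AlgEquiv.restrictNormalHom F g ε) ^ k := by
      rw [map_pow, h5, ← nabs_split hp P P' hP1 hP2]
      exact nabs_pow _ _ _
    rw [h6, Real.log_pow, hk]
    push_cast
    rw [h4]
    ring
  · rw [hk]; exact h3.lift

end Pool.Agent.N598.ST
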